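import Pool.Agent.Q37.WP.Mono

/-! # Chains of monomial ideals with linear colon ideals -/

set_option autoImplicit false

namespace Q37.WP

open MvPolynomial

variable (K : Type) [Field K]

/-- `θ_i ↦ x_i - y_i` -/
noncomputable def sg : MvPolynomial (Fin 3) K →ₐ[K] MvPolynomial (Fin 6) K :=
  aeval ![X 0 - X 3, X 1 - X 4, X 2 - X 5]

/-- `MvPolynomial (Fin 6) K` as an algebra over `K[θ₁, θ₂, θ₃]` -/
noncomputable abbrev sgAlg : Algebra (MvPolynomial (Fin 3) K) (MvPolynomial (Fin 6) K) :=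
  (sg K).toRingHom.toAlgebra

attribute [local instance] sgAlg

lemma algMap_eq (s : MvPolynomial (Fin 3) K) :
    algebraMap (MvPolynomial (Fin 3) K) (MvPolynomial (Fin 6) K) s = sg K s := rfl

/-- the variables to be killed (`false`: `x_i`, `true`: `y_i`) -/
def W (t : Bool × Bool × Bool) : List M6 :=
  [bif t.1 then ⟨0, 0, 0, 1, 0, 0⟩ else ⟨1, 0, 0, 0, 0, 0⟩,
   bif t.2.1 then ⟨0, 0, 0, 0, 1, 0⟩ else ⟨0, 1, 0, 0, 0, 0⟩,
   bif t.2.2 then ⟨0, 0, 0, 0, 0, 1⟩ else ⟨0, 0, 1, 0, 0, 0⟩]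

/-- the retraction -/
noncomputable def rt (t : Bool × Bool × Bool) : MvPolynomial (Fin 6) K →ₐ[K] MvPolynomial (Fin 3) K :=
  aeval ![bif t.1 then X 0 else 0, bif t.2.1 then X 1 else 0, bif t.2.2 then X 2 else 0,
    bif t.1 then 0 else -X 0, bif t.2.1 then 0 else -X 1, bif t.2.2 then 0 else -X 2]

lemma rt_sg (t : Bool × Bool × Bool) (s : MvPolynomial (Fin 3) K) : rt K t (sg K s) = s := by
  have : (rt K t).comp (sg K) = AlgHom.id K _ := by
    apply MvPolynomial.algHom_ext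
    obtain ⟨t1, t2, t3⟩ := t
    intro i
    fin_cases i
    · cases t1 <;> simp [rt, sg]
    · cases t2 <;> simp [rt, sg]
    · cases t3 <;> simp [rt, sg]
  exact AlgHom.congr_fun this s

lemma mon_X0 : mon K ⟨1, 0, 0, 0, 0, 0⟩ = X 0 := by
  have : M6.toF ⟨1, 0, 0, 0, 0, 0⟩ = Finsupp.single 0 1 := by
    ext i; fin_cases i <;> simp [M6.toF]
  unfold mon; rw [this]; rfl

lemma mon_X1 : mon K ⟨0, 1, 0, 0, 0, 0⟩ = X 1 := by
  have : M6.toF ⟨0, 1, 0, 0, 0, 0⟩ = Finsupp.single 1 1 := by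
    ext i; fin_cases i <;> simp [M6.toF]
  unfold mon; rw [this]; rfl

lemma mon_X2 : mon K ⟨0, 0, 1, 0, 0, 0⟩ = X 2 := by
  have : M6.toF ⟨0, 0, 1, 0, 0, 0⟩ = Finsupp.single 2 1 := by
    ext i; fin_cases i <;> simp [M6.toF]
  unfold mon; rw [this]; rfl

lemma mon_X3 : mon K ⟨0, 0, 0, 1, 0, 0⟩ = X 3 := by
  have : M6.toF ⟨0, 0, 0, 1, 0, 0⟩ = Finsupp.single 3 1 := by
    ext i; fin_cases i <;> simp [M6.toF]
  unfold mon; rw [this]; rfl

lemma mon_X4 : mon K ⟨0, 0, 0, 0, 1, 0⟩ = X 4 := by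
  have : M6.toF ⟨0, 0, 0, 0, 1, 0⟩ = Finsupp.single 4 1 := by
    ext i; fin_cases i <;> simp [M6.toF]
  unfold mon; rw [this]; rfl

lemma mon_X5 : mon K ⟨0, 0, 0, 0, 0, 1⟩ = X 5 := by
  have : M6.toF ⟨0, 0, 0, 0, 0, 1⟩ = Finsupp.single 5 1 := by
    ext i; fin_cases i <;> simp [M6.toF]
  unfold mon; rw [this]; rfl

lemma sub_mem_W (t : Bool × Bool × Bool) (f : MvPolynomial (Fin 6) K) :
    f - sg K (rt K t f) ∈ mi K (W t) := by
  induction f using MvPolynomial.induction_on with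
  | C a => simp [rt, sg]
  | add p q hp hq =>
    have : p + q - sg K (rt K t (p + q)) = (p - sg K (rt K t p)) + (q - sg K (rt K t q)) := by
      rw [map_add, map_add]; ring
    rw [this]; exact add_mem hp hq
  | mul_X p i hp =>
    have hX : (X i : MvPolynomial (Fin 6) K) - sg K (rt K t (X i)) ∈ mi K (W t) := by
      obtain ⟨t1, t2, t3⟩ := t
      fin_cases i
      · cases t1
        · simpa [rt, mon_X0] using mon_mem K (L := W (false, t2, t3)) (v := ⟨1, 0, 0, 0, 0, 0⟩) (by simp [W])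
        · simpa [rt, sg, mon_X3] using mon_mem K (L := W (true, t2, t3)) (v := ⟨0, 0, 0, 1, 0, 0⟩) (by simp [W])
      · cases t2
        · simpa [rt, mon_X1] using mon_mem K (L := W (t1, false, t3)) (v := ⟨0, 1, 0, 0, 0, 0⟩) (by simp [W])
        · simpa [rt, sg, mon_X4] using mon_mem K (L := W (t1, true, t3)) (v := ⟨0, 0, 0, 0, 1, 0⟩) (by simp [W])
      · cases t3
        · simpa [rt, mon_X2] using mon_mem K (L := W (t1, t2, false)) (v := ⟨0, 0, 1, 0, 0, 0⟩) (by simp [W])
        · simpa [rt, sg, mon_X5] using mon_mem K (L := W (t1, t2, true)) (v := ⟨0, 0, 0, 0, 0, 1⟩) (by simp [W])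
      · cases t1
        · simpa [rt, sg, mon_X0] using mon_mem K (L := W (false, t2, t3)) (v := ⟨1, 0, 0, 0, 0, 0⟩) (by simp [W])
        · simpa [rt, mon_X3] using mon_mem K (L := W (true, t2, t3)) (v := ⟨0, 0, 0, 1, 0, 0⟩) (by simp [W])
      · cases t2
        · simpa [rt, sg, mon_X1] using mon_mem K (L := W (t1, false, t3)) (v := ⟨0, 1, 0, 0, 0, 0⟩) (by simp [W])
        · simpa [rt, mon_X4] using mon_mem K (L := W (t1, true, t3)) (v := ⟨0, 0, 0, 0, 1, 0⟩) (by simp [W])
      · cases t3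
        · simpa [rt, sg, mon_X2] using mon_mem K (L := W (t1, t2, false)) (v := ⟨0, 0, 1, 0, 0, 0⟩) (by simp [W])
        · simpa [rt, mon_X5] using mon_mem K (L := W (t1, t2, true)) (v := ⟨0, 0, 0, 0, 0, 1⟩) (by simp [W])
    have : p * X i - sg K (rt K t (p * X i)) =
        (p - sg K (rt K t p)) * X i + sg K (rt K t p) * (X i - sg K (rt K t (X i))) := by
      rw [map_mul, map_mul]; ring
    rw [this]
    exact add_mem (Ideal.mul_mem_right _ _ hp) (Ideal.mul_mem_left _ _ hX)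

lemma rt_zero_iff (t : Bool × Bool × Bool) (f : MvPolynomial (Fin 6) K) :
    f ∈ mi K (W t) ↔ rt K t f = 0 := by
  constructor
  · intro h
    have : mi K (W t) ≤ RingHom.ker (rt K t) := by
      apply mi_le_of
      intro v hv
      show rt K t (mon K v) = 0
      obtain ⟨t1, t2, t3⟩ := t
      simp only [W, List.mem_cons, List.not_mem_nil, or_false] at hv
      rcases hv with rfl | rfl | rfl
      · cases t1 <;> simp [mon_X0, mon_X3, rt]
      · cases t2 <;> simp [mon_X1, mon_X4, rt]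
      · cases t3 <;> simp [mon_X2, mon_X5, rt]
    exact this h
  · intro h
    have := sub_mem_W K t f
    rwa [h, map_zero, sub_zero] at this

/-- colon check -/
def colchk (L : List M6) (v : M6) (t : Bool × Bool × Bool) : Bool :=
  covers (L.map fun g => g.sub v) (W t) && covers (W t) (L.map fun g => g.sub v)

lemma col {L : List M6} {v : M6} {t : Bool × Bool × Bool} (h : colchk L v t = true)
    (f : MvPolynomial (Fin 6) K) : f * mon K v ∈ mi K L ↔ rt K t f = 0 := by
  rw [mem_mul_mon, mi_eq K h, rt_zero_iff]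

/-- the chain check -/
def chk : List M6 → List (M6 × (Bool × Bool × Bool)) → Bool
  | L, [] => covers L [⟨0, 0, 0, 0, 0, 0⟩]
  | L, (v, t) :: ds => colchk L v t && chk (ins v L) ds

theorem chk_free : ∀ (ds : List (M6 × (Bool × Bool × Bool))) (L : List M6), chk L ds = true →
    Module.Free (MvPolynomial (Fin 3) K) (MvPolynomial (Fin 6) K ⧸ mi K L) ∧
    Module.Finite (MvPolynomial (Fin 3) K) (MvPolynomial (Fin 6) K ⧸ mi K L)
  | [], L, h => by
    have h1 : mi K L = ⊤ := mi_one K h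
    have : Subsingleton (MvPolynomial (Fin 6) K ⧸ mi K L) := Ideal.Quotient.subsingleton_iff.2 h1
    exact ⟨inferInstance, inferInstance⟩
  | (v, t) :: ds, L, h => by
    simp only [chk, Bool.and_eq_true] at h
    have ih := chk_free ds (ins v L) h.2
    rw [← mi_ins] at ih
    exact step (rt K t).toRingHom (rt_sg K t) (mi K L) (mon K v) (col K h.1) ih

/-- the chain check with a constant prime -/
def chkN (t : Bool × Bool × Bool) : List M6 → List M6 → Bool
  | L, [] => covers L [⟨0, 0, 0, 0, 0, 0⟩]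
  | L, v :: ds => colchk L v t && chkN t (ins v L) ds

theorem chkN_nzd (t : Bool × Bool × Bool) : ∀ (ds : List M6) (L : List M6), chkN t L ds = true →
    ∀ a z, rt K t a ≠ 0 → a * z ∈ mi K L → z ∈ mi K L
  | [], L, h => by
    intro a z _ _
    rw [mi_one K h]; trivial
  | v :: ds, L, h => by
    simp only [chkN, Bool.and_eq_true] at h
    have ih := chkN_nzd t ds (ins v L) h.2
    rw [← mi_ins] at ih
    exact step_nzd (rt K t).toRingHom (mi K L) (mon K v) (col K h.1) ih

end Q37.WP
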