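import Pool.Agent.Q37.WP.Chain

/-! # Certificates for the powers of the weighted edge ideal -/

set_option autoImplicit false

namespace Q37.WP

/-- generators of `I` -/
def g1 : List M6 :=
  [⟨1, 1, 0, 0, 0, 0⟩, ⟨0, 1, 1, 0, 0, 0⟩, ⟨2, 0, 0, 2, 0, 0⟩, ⟨0, 2, 0, 0, 2, 0⟩, ⟨0, 0, 2, 0, 0, 2⟩]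

/-- generators of `I ^ 2` -/
def g2 : List M6 :=
  [⟨0, 0, 4, 0, 0, 4⟩, ⟨0, 1, 3, 0, 0, 2⟩, ⟨0, 2, 2, 0, 0, 0⟩, ⟨0, 3, 1, 0, 2, 0⟩, ⟨0, 4, 0, 0, 4, 0⟩, ⟨1, 1, 2, 0, 0, 2⟩,
   ⟨1, 2, 1, 0, 0, 0⟩, ⟨1, 3, 0, 0, 2, 0⟩, ⟨2, 0, 2, 2, 0, 2⟩, ⟨2, 1, 1, 2, 0, 0⟩, ⟨2, 2, 0, 0, 0, 0⟩, ⟨3, 1, 0, 2, 0, 0⟩,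
   ⟨4, 0, 0, 4, 0, 0⟩]

/-- generators of `I ^ 4` -/
def g4 : List M6 :=
  [⟨0, 0, 8, 0, 0, 8⟩, ⟨0, 1, 7, 0, 0, 6⟩, ⟨0, 2, 6, 0, 0, 4⟩, ⟨0, 3, 5, 0, 0, 2⟩, ⟨0, 4, 4, 0, 0, 0⟩, ⟨0, 5, 3, 0, 2, 0⟩,
   ⟨0, 6, 2, 0, 4, 0⟩, ⟨0, 7, 1, 0, 6, 0⟩, ⟨0, 8, 0, 0, 8, 0⟩, ⟨1, 1, 6, 0, 0, 6⟩, ⟨1, 2, 5, 0, 0, 4⟩, ⟨1, 3, 4, 0, 0, 2⟩,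
   ⟨1, 4, 3, 0, 0, 0⟩, ⟨1, 5, 2, 0, 2, 0⟩, ⟨1, 6, 1, 0, 4, 0⟩, ⟨1, 7, 0, 0, 6, 0⟩, ⟨2, 0, 6, 2, 0, 6⟩, ⟨2, 1, 5, 2, 0, 4⟩,
   ⟨2, 2, 4, 0, 0, 4⟩, ⟨2, 2, 4, 2, 0, 2⟩, ⟨2, 3, 3, 0, 0, 2⟩, ⟨2, 3, 3, 2, 0, 0⟩, ⟨2, 4, 2, 0, 0, 0⟩, ⟨2, 5, 1, 0, 2, 0⟩,
   ⟨2, 6, 0, 0, 4, 0⟩, ⟨3, 1, 4, 2, 0, 4⟩, ⟨3, 2, 3, 2, 0, 2⟩, ⟨3, 3, 2, 0, 0, 2⟩, ⟨3, 3, 2, 2, 0, 0⟩, ⟨3, 4, 1, 0, 0, 0⟩,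
   ⟨3, 5, 0, 0, 2, 0⟩, ⟨4, 0, 4, 4, 0, 4⟩, ⟨4, 1, 3, 4, 0, 2⟩, ⟨4, 2, 2, 2, 0, 2⟩, ⟨4, 2, 2, 4, 0, 0⟩, ⟨4, 3, 1, 2, 0, 0⟩,
   ⟨4, 4, 0, 0, 0, 0⟩, ⟨5, 1, 2, 4, 0, 2⟩, ⟨5, 2, 1, 4, 0, 0⟩, ⟨5, 3, 0, 2, 0, 0⟩, ⟨6, 0, 2, 6, 0, 2⟩, ⟨6, 1, 1, 6, 0, 0⟩,
   ⟨6, 2, 0, 4, 0, 0⟩, ⟨7, 1, 0, 6, 0, 0⟩, ⟨8, 0, 0, 8, 0, 0⟩]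

/-- chain for `I ^ 2` -/
def ch2 : List (M6 × (Bool × Bool × Bool)) :=
  [(⟨1, 0, 3, 2, 0, 4⟩, (false, false, false)), (⟨1, 0, 3, 2, 0, 3⟩, (false, false, true)),
   (⟨1, 0, 3, 2, 0, 2⟩, (false, false, true)), (⟨0, 0, 3, 2, 0, 4⟩, (false, false, false)),
   (⟨0, 0, 3, 2, 0, 3⟩, (false, false, true)), (⟨0, 0, 3, 2, 0, 2⟩, (false, false, true)),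
   (⟨0, 0, 3, 1, 0, 4⟩, (true, false, false)), (⟨0, 0, 3, 1, 0, 3⟩, (true, false, true)),
   (⟨0, 0, 3, 1, 0, 2⟩, (true, false, true)), (⟨0, 0, 3, 0, 0, 4⟩, (true, false, false)),
   (⟨0, 0, 3, 0, 0, 3⟩, (true, false, true)), (⟨0, 0, 3, 0, 0, 2⟩, (true, false, true)),
   (⟨3, 0, 1, 4, 0, 2⟩, (false, false, false)), (⟨3, 0, 1, 4, 0, 1⟩, (false, false, true)),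
   (⟨3, 0, 1, 4, 0, 0⟩, (false, false, true)), (⟨2, 0, 1, 4, 0, 2⟩, (false, false, false)),
   (⟨2, 0, 1, 4, 0, 1⟩, (false, false, true)), (⟨2, 0, 1, 4, 0, 0⟩, (false, false, true)),
   (⟨2, 0, 1, 3, 0, 2⟩, (true, false, false)), (⟨2, 0, 1, 3, 0, 1⟩, (true, false, true)),
   (⟨2, 0, 1, 3, 0, 0⟩, (true, false, true)), (⟨2, 0, 1, 2, 0, 2⟩, (true, false, false)),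
   (⟨2, 0, 1, 2, 0, 1⟩, (true, false, true)), (⟨2, 0, 1, 2, 0, 0⟩, (true, false, true)),
   (⟨1, 1, 1, 2, 0, 2⟩, (false, false, false)), (⟨1, 1, 1, 2, 0, 1⟩, (false, false, true)),
   (⟨1, 1, 1, 2, 0, 0⟩, (false, false, true)), (⟨1, 1, 1, 1, 0, 2⟩, (true, false, false)),
   (⟨1, 1, 1, 1, 0, 1⟩, (true, false, true)), (⟨1, 1, 1, 1, 0, 0⟩, (true, false, true)),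
   (⟨1, 1, 1, 0, 0, 2⟩, (true, false, false)), (⟨1, 1, 1, 0, 0, 1⟩, (true, false, true)),
   (⟨1, 1, 1, 0, 0, 0⟩, (true, false, true)), (⟨1, 0, 2, 2, 0, 2⟩, (false, false, false)),
   (⟨1, 0, 1, 2, 0, 2⟩, (false, false, false)), (⟨1, 0, 1, 2, 0, 1⟩, (false, false, true)),
   (⟨1, 0, 1, 2, 0, 0⟩, (false, false, true)), (⟨1, 0, 2, 1, 0, 2⟩, (true, false, false)),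
   (⟨1, 0, 1, 1, 0, 2⟩, (true, false, false)), (⟨1, 0, 1, 1, 0, 1⟩, (true, false, true)),
   (⟨1, 0, 1, 1, 0, 0⟩, (true, false, true)), (⟨1, 0, 2, 0, 0, 2⟩, (true, false, false)),
   (⟨1, 0, 1, 0, 0, 2⟩, (true, false, false)), (⟨1, 0, 1, 0, 0, 1⟩, (true, false, true)),
   (⟨1, 0, 1, 0, 0, 0⟩, (true, false, true)), (⟨0, 1, 2, 0, 0, 2⟩, (false, false, false)),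
   (⟨0, 1, 2, 0, 0, 1⟩, (false, false, true)), (⟨0, 1, 2, 0, 0, 0⟩, (false, false, true)),
   (⟨0, 0, 2, 0, 0, 2⟩, (false, false, false)), (⟨0, 0, 2, 0, 0, 1⟩, (false, false, true)),
   (⟨0, 0, 2, 0, 0, 0⟩, (false, false, true)), (⟨0, 2, 1, 0, 2, 0⟩, (false, false, false)),
   (⟨0, 1, 1, 0, 2, 0⟩, (false, false, false)), (⟨0, 0, 1, 0, 2, 0⟩, (false, false, false)),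
   (⟨0, 0, 1, 0, 1, 0⟩, (false, true, false)), (⟨0, 0, 1, 0, 0, 0⟩, (false, true, false)),
   (⟨1, 2, 0, 0, 2, 0⟩, (false, false, false)), (⟨1, 2, 0, 0, 1, 0⟩, (false, true, false)),
   (⟨1, 2, 0, 0, 0, 0⟩, (false, true, false)), (⟨0, 3, 0, 0, 4, 0⟩, (false, false, false)),
   (⟨0, 2, 0, 0, 4, 0⟩, (false, false, false)), (⟨0, 2, 0, 0, 3, 0⟩, (false, true, false)),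
   (⟨0, 2, 0, 0, 2, 0⟩, (false, true, false)), (⟨0, 2, 0, 0, 1, 0⟩, (false, true, false)),
   (⟨0, 2, 0, 0, 0, 0⟩, (false, true, false)), (⟨2, 1, 0, 2, 0, 0⟩, (false, false, false)),
   (⟨1, 1, 0, 2, 0, 0⟩, (false, false, false)), (⟨0, 1, 0, 2, 0, 0⟩, (false, false, false)),
   (⟨0, 1, 0, 1, 0, 0⟩, (true, false, false)), (⟨0, 1, 0, 0, 0, 0⟩, (true, false, false)),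
   (⟨3, 0, 0, 4, 0, 0⟩, (false, false, false)), (⟨2, 0, 0, 4, 0, 0⟩, (false, false, false)),
   (⟨1, 0, 0, 4, 0, 0⟩, (false, false, false)), (⟨0, 0, 0, 4, 0, 0⟩, (false, false, false)),
   (⟨0, 0, 0, 3, 0, 0⟩, (true, false, false)), (⟨0, 0, 0, 2, 0, 0⟩, (true, false, false)),
   (⟨0, 0, 0, 1, 0, 0⟩, (true, false, false)), (⟨0, 0, 0, 0, 0, 0⟩, (true, false, false))]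

/-- primary component -/
def q0 : List M6 :=
  [⟨0, 0, 8, 0, 0, 0⟩, ⟨0, 1, 7, 0, 0, 0⟩, ⟨0, 2, 6, 0, 0, 0⟩, ⟨0, 3, 5, 0, 0, 0⟩, ⟨0, 4, 4, 0, 0, 0⟩, ⟨0, 5, 3, 0, 0, 0⟩,
   ⟨0, 6, 2, 0, 0, 0⟩, ⟨0, 7, 1, 0, 0, 0⟩, ⟨0, 8, 0, 0, 0, 0⟩, ⟨1, 1, 6, 0, 0, 0⟩, ⟨1, 2, 5, 0, 0, 0⟩, ⟨1, 3, 4, 0, 0, 0⟩,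
   ⟨1, 4, 3, 0, 0, 0⟩, ⟨1, 5, 2, 0, 0, 0⟩, ⟨1, 6, 1, 0, 0, 0⟩, ⟨1, 7, 0, 0, 0, 0⟩, ⟨2, 0, 6, 0, 0, 0⟩, ⟨2, 1, 5, 0, 0, 0⟩,
   ⟨2, 2, 4, 0, 0, 0⟩, ⟨2, 3, 3, 0, 0, 0⟩, ⟨2, 4, 2, 0, 0, 0⟩, ⟨2, 5, 1, 0, 0, 0⟩, ⟨2, 6, 0, 0, 0, 0⟩, ⟨3, 1, 4, 0, 0, 0⟩,
   ⟨3, 2, 3, 0, 0, 0⟩, ⟨3, 3, 2, 0, 0, 0⟩, ⟨3, 4, 1, 0, 0, 0⟩, ⟨3, 5, 0, 0, 0, 0⟩, ⟨4, 0, 4, 0, 0, 0⟩, ⟨4, 1, 3, 0, 0, 0⟩,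
   ⟨4, 2, 2, 0, 0, 0⟩, ⟨4, 3, 1, 0, 0, 0⟩, ⟨4, 4, 0, 0, 0, 0⟩, ⟨5, 1, 2, 0, 0, 0⟩, ⟨5, 2, 1, 0, 0, 0⟩, ⟨5, 3, 0, 0, 0, 0⟩,
   ⟨6, 0, 2, 0, 0, 0⟩, ⟨6, 1, 1, 0, 0, 0⟩, ⟨6, 2, 0, 0, 0, 0⟩, ⟨7, 1, 0, 0, 0, 0⟩, ⟨8, 0, 0, 0, 0, 0⟩]

/-- chain for `q0` -/
def c0 : List M6 :=
  [⟨1, 0, 7, 0, 0, 0⟩, ⟨3, 0, 5, 0, 0, 0⟩, ⟨5, 0, 3, 0, 0, 0⟩, ⟨7, 0, 1, 0, 0, 0⟩, ⟨0, 0, 7, 0, 0, 0⟩, ⟨0, 1, 6, 0, 0, 0⟩,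
   ⟨0, 2, 5, 0, 0, 0⟩, ⟨0, 3, 4, 0, 0, 0⟩, ⟨0, 4, 3, 0, 0, 0⟩, ⟨0, 5, 2, 0, 0, 0⟩, ⟨0, 6, 1, 0, 0, 0⟩, ⟨0, 7, 0, 0, 0, 0⟩,
   ⟨1, 0, 6, 0, 0, 0⟩, ⟨1, 1, 5, 0, 0, 0⟩, ⟨1, 2, 4, 0, 0, 0⟩, ⟨1, 3, 3, 0, 0, 0⟩, ⟨1, 4, 2, 0, 0, 0⟩, ⟨1, 5, 1, 0, 0, 0⟩,
   ⟨1, 6, 0, 0, 0, 0⟩, ⟨2, 0, 5, 0, 0, 0⟩, ⟨2, 1, 4, 0, 0, 0⟩, ⟨2, 2, 3, 0, 0, 0⟩, ⟨2, 3, 2, 0, 0, 0⟩, ⟨2, 4, 1, 0, 0, 0⟩,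
   ⟨2, 5, 0, 0, 0, 0⟩, ⟨3, 0, 4, 0, 0, 0⟩, ⟨3, 1, 3, 0, 0, 0⟩, ⟨3, 2, 2, 0, 0, 0⟩, ⟨3, 3, 1, 0, 0, 0⟩, ⟨3, 4, 0, 0, 0, 0⟩,
   ⟨4, 0, 3, 0, 0, 0⟩, ⟨4, 1, 2, 0, 0, 0⟩, ⟨4, 2, 1, 0, 0, 0⟩, ⟨4, 3, 0, 0, 0, 0⟩, ⟨5, 0, 2, 0, 0, 0⟩, ⟨5, 1, 1, 0, 0, 0⟩,
   ⟨5, 2, 0, 0, 0, 0⟩, ⟨6, 0, 1, 0, 0, 0⟩, ⟨6, 1, 0, 0, 0, 0⟩, ⟨7, 0, 0, 0, 0, 0⟩, ⟨0, 0, 6, 0, 0, 0⟩, ⟨0, 1, 5, 0, 0, 0⟩,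
   ⟨0, 2, 4, 0, 0, 0⟩, ⟨0, 3, 3, 0, 0, 0⟩, ⟨0, 4, 2, 0, 0, 0⟩, ⟨0, 5, 1, 0, 0, 0⟩, ⟨0, 6, 0, 0, 0, 0⟩, ⟨1, 0, 5, 0, 0, 0⟩,
   ⟨1, 1, 4, 0, 0, 0⟩, ⟨1, 2, 3, 0, 0, 0⟩, ⟨1, 3, 2, 0, 0, 0⟩, ⟨1, 4, 1, 0, 0, 0⟩, ⟨1, 5, 0, 0, 0, 0⟩, ⟨2, 0, 4, 0, 0, 0⟩,
   ⟨2, 1, 3, 0, 0, 0⟩, ⟨2, 2, 2, 0, 0, 0⟩, ⟨2, 3, 1, 0, 0, 0⟩, ⟨2, 4, 0, 0, 0, 0⟩, ⟨3, 0, 3, 0, 0, 0⟩, ⟨3, 1, 2, 0, 0, 0⟩,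
   ⟨3, 2, 1, 0, 0, 0⟩, ⟨3, 3, 0, 0, 0, 0⟩, ⟨4, 0, 2, 0, 0, 0⟩, ⟨4, 1, 1, 0, 0, 0⟩, ⟨4, 2, 0, 0, 0, 0⟩, ⟨5, 0, 1, 0, 0, 0⟩,
   ⟨5, 1, 0, 0, 0, 0⟩, ⟨6, 0, 0, 0, 0, 0⟩, ⟨0, 0, 5, 0, 0, 0⟩, ⟨0, 1, 4, 0, 0, 0⟩, ⟨0, 2, 3, 0, 0, 0⟩, ⟨0, 3, 2, 0, 0, 0⟩,
   ⟨0, 4, 1, 0, 0, 0⟩, ⟨0, 5, 0, 0, 0, 0⟩, ⟨1, 0, 4, 0, 0, 0⟩, ⟨1, 1, 3, 0, 0, 0⟩, ⟨1, 2, 2, 0, 0, 0⟩, ⟨1, 3, 1, 0, 0, 0⟩,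
   ⟨1, 4, 0, 0, 0, 0⟩, ⟨2, 0, 3, 0, 0, 0⟩, ⟨2, 1, 2, 0, 0, 0⟩, ⟨2, 2, 1, 0, 0, 0⟩, ⟨2, 3, 0, 0, 0, 0⟩, ⟨3, 0, 2, 0, 0, 0⟩,
   ⟨3, 1, 1, 0, 0, 0⟩, ⟨3, 2, 0, 0, 0, 0⟩, ⟨4, 0, 1, 0, 0, 0⟩, ⟨4, 1, 0, 0, 0, 0⟩, ⟨5, 0, 0, 0, 0, 0⟩, ⟨0, 0, 4, 0, 0, 0⟩,
   ⟨0, 1, 3, 0, 0, 0⟩, ⟨0, 2, 2, 0, 0, 0⟩, ⟨0, 3, 1, 0, 0, 0⟩, ⟨0, 4, 0, 0, 0, 0⟩, ⟨1, 0, 3, 0, 0, 0⟩, ⟨1, 1, 2, 0, 0, 0⟩,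
   ⟨1, 2, 1, 0, 0, 0⟩, ⟨1, 3, 0, 0, 0, 0⟩, ⟨2, 0, 2, 0, 0, 0⟩, ⟨2, 1, 1, 0, 0, 0⟩, ⟨2, 2, 0, 0, 0, 0⟩, ⟨3, 0, 1, 0, 0, 0⟩,
   ⟨3, 1, 0, 0, 0, 0⟩, ⟨4, 0, 0, 0, 0, 0⟩, ⟨0, 0, 3, 0, 0, 0⟩, ⟨0, 1, 2, 0, 0, 0⟩, ⟨0, 2, 1, 0, 0, 0⟩, ⟨0, 3, 0, 0, 0, 0⟩,
   ⟨1, 0, 2, 0, 0, 0⟩, ⟨1, 1, 1, 0, 0, 0⟩, ⟨1, 2, 0, 0, 0, 0⟩, ⟨2, 0, 1, 0, 0, 0⟩, ⟨2, 1, 0, 0, 0, 0⟩, ⟨3, 0, 0, 0, 0, 0⟩,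
   ⟨0, 0, 2, 0, 0, 0⟩, ⟨0, 1, 1, 0, 0, 0⟩, ⟨0, 2, 0, 0, 0, 0⟩, ⟨1, 0, 1, 0, 0, 0⟩, ⟨1, 1, 0, 0, 0, 0⟩, ⟨2, 0, 0, 0, 0, 0⟩,
   ⟨0, 0, 1, 0, 0, 0⟩, ⟨0, 1, 0, 0, 0, 0⟩, ⟨1, 0, 0, 0, 0, 0⟩, ⟨0, 0, 0, 0, 0, 0⟩]

/-- primary component -/
def q1 : List M6 :=
  [⟨0, 0, 0, 8, 0, 0⟩, ⟨0, 0, 2, 6, 0, 0⟩, ⟨0, 0, 4, 4, 0, 0⟩, ⟨0, 0, 6, 2, 0, 0⟩, ⟨0, 0, 8, 0, 0, 0⟩, ⟨0, 1, 0, 6, 0, 0⟩,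
   ⟨0, 1, 2, 4, 0, 0⟩, ⟨0, 1, 4, 2, 0, 0⟩, ⟨0, 1, 6, 0, 0, 0⟩, ⟨0, 2, 0, 4, 0, 0⟩, ⟨0, 2, 2, 2, 0, 0⟩, ⟨0, 2, 4, 0, 0, 0⟩,
   ⟨0, 3, 0, 2, 0, 0⟩, ⟨0, 3, 2, 0, 0, 0⟩, ⟨0, 4, 0, 0, 0, 0⟩]

/-- chain for `q1` -/
def c1 : List M6 :=
  [⟨0, 0, 1, 7, 0, 0⟩, ⟨0, 0, 3, 5, 0, 0⟩, ⟨0, 0, 5, 3, 0, 0⟩, ⟨0, 0, 7, 1, 0, 0⟩, ⟨0, 0, 0, 7, 0, 0⟩, ⟨0, 0, 1, 6, 0, 0⟩,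
   ⟨0, 0, 2, 5, 0, 0⟩, ⟨0, 0, 3, 4, 0, 0⟩, ⟨0, 0, 4, 3, 0, 0⟩, ⟨0, 0, 5, 2, 0, 0⟩, ⟨0, 0, 6, 1, 0, 0⟩, ⟨0, 0, 7, 0, 0, 0⟩,
   ⟨0, 1, 1, 5, 0, 0⟩, ⟨0, 1, 3, 3, 0, 0⟩, ⟨0, 1, 5, 1, 0, 0⟩, ⟨0, 0, 0, 6, 0, 0⟩, ⟨0, 0, 1, 5, 0, 0⟩, ⟨0, 0, 2, 4, 0, 0⟩,
   ⟨0, 0, 3, 3, 0, 0⟩, ⟨0, 0, 4, 2, 0, 0⟩, ⟨0, 0, 5, 1, 0, 0⟩, ⟨0, 0, 6, 0, 0, 0⟩, ⟨0, 1, 0, 5, 0, 0⟩, ⟨0, 1, 1, 4, 0, 0⟩,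
   ⟨0, 1, 2, 3, 0, 0⟩, ⟨0, 1, 3, 2, 0, 0⟩, ⟨0, 1, 4, 1, 0, 0⟩, ⟨0, 1, 5, 0, 0, 0⟩, ⟨0, 2, 1, 3, 0, 0⟩, ⟨0, 2, 3, 1, 0, 0⟩,
   ⟨0, 0, 0, 5, 0, 0⟩, ⟨0, 0, 1, 4, 0, 0⟩, ⟨0, 0, 2, 3, 0, 0⟩, ⟨0, 0, 3, 2, 0, 0⟩, ⟨0, 0, 4, 1, 0, 0⟩, ⟨0, 0, 5, 0, 0, 0⟩,
   ⟨0, 1, 0, 4, 0, 0⟩, ⟨0, 1, 1, 3, 0, 0⟩, ⟨0, 1, 2, 2, 0, 0⟩, ⟨0, 1, 3, 1, 0, 0⟩, ⟨0, 1, 4, 0, 0, 0⟩, ⟨0, 2, 0, 3, 0, 0⟩,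
   ⟨0, 2, 1, 2, 0, 0⟩, ⟨0, 2, 2, 1, 0, 0⟩, ⟨0, 2, 3, 0, 0, 0⟩, ⟨0, 3, 1, 1, 0, 0⟩, ⟨0, 0, 0, 4, 0, 0⟩, ⟨0, 0, 1, 3, 0, 0⟩,
   ⟨0, 0, 2, 2, 0, 0⟩, ⟨0, 0, 3, 1, 0, 0⟩, ⟨0, 0, 4, 0, 0, 0⟩, ⟨0, 1, 0, 3, 0, 0⟩, ⟨0, 1, 1, 2, 0, 0⟩, ⟨0, 1, 2, 1, 0, 0⟩,
   ⟨0, 1, 3, 0, 0, 0⟩, ⟨0, 2, 0, 2, 0, 0⟩, ⟨0, 2, 1, 1, 0, 0⟩, ⟨0, 2, 2, 0, 0, 0⟩, ⟨0, 3, 0, 1, 0, 0⟩, ⟨0, 3, 1, 0, 0, 0⟩,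
   ⟨0, 0, 0, 3, 0, 0⟩, ⟨0, 0, 1, 2, 0, 0⟩, ⟨0, 0, 2, 1, 0, 0⟩, ⟨0, 0, 3, 0, 0, 0⟩, ⟨0, 1, 0, 2, 0, 0⟩, ⟨0, 1, 1, 1, 0, 0⟩,
   ⟨0, 1, 2, 0, 0, 0⟩, ⟨0, 2, 0, 1, 0, 0⟩, ⟨0, 2, 1, 0, 0, 0⟩, ⟨0, 3, 0, 0, 0, 0⟩, ⟨0, 0, 0, 2, 0, 0⟩, ⟨0, 0, 1, 1, 0, 0⟩,
   ⟨0, 0, 2, 0, 0, 0⟩, ⟨0, 1, 0, 1, 0, 0⟩, ⟨0, 1, 1, 0, 0, 0⟩, ⟨0, 2, 0, 0, 0, 0⟩, ⟨0, 0, 0, 1, 0, 0⟩, ⟨0, 0, 1, 0, 0, 0⟩,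
   ⟨0, 1, 0, 0, 0, 0⟩, ⟨0, 0, 0, 0, 0, 0⟩]

/-- primary component -/
def q2 : List M6 :=
  [⟨0, 0, 0, 0, 8, 0⟩, ⟨0, 0, 1, 0, 6, 0⟩, ⟨0, 0, 2, 0, 4, 0⟩, ⟨0, 0, 3, 0, 2, 0⟩, ⟨0, 0, 4, 0, 0, 0⟩, ⟨1, 0, 0, 0, 6, 0⟩,
   ⟨1, 0, 1, 0, 4, 0⟩, ⟨1, 0, 2, 0, 2, 0⟩, ⟨1, 0, 3, 0, 0, 0⟩, ⟨2, 0, 0, 0, 4, 0⟩, ⟨2, 0, 1, 0, 2, 0⟩, ⟨2, 0, 2, 0, 0, 0⟩,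
   ⟨3, 0, 0, 0, 2, 0⟩, ⟨3, 0, 1, 0, 0, 0⟩, ⟨4, 0, 0, 0, 0, 0⟩]

/-- chain for `q2` -/
def c2 : List M6 :=
  [⟨0, 0, 0, 0, 7, 0⟩, ⟨0, 0, 0, 0, 6, 0⟩, ⟨0, 0, 1, 0, 5, 0⟩, ⟨1, 0, 0, 0, 5, 0⟩, ⟨0, 0, 0, 0, 5, 0⟩, ⟨0, 0, 1, 0, 4, 0⟩,
   ⟨0, 0, 2, 0, 3, 0⟩, ⟨1, 0, 0, 0, 4, 0⟩, ⟨1, 0, 1, 0, 3, 0⟩, ⟨2, 0, 0, 0, 3, 0⟩, ⟨0, 0, 0, 0, 4, 0⟩, ⟨0, 0, 1, 0, 3, 0⟩,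
   ⟨0, 0, 2, 0, 2, 0⟩, ⟨0, 0, 3, 0, 1, 0⟩, ⟨1, 0, 0, 0, 3, 0⟩, ⟨1, 0, 1, 0, 2, 0⟩, ⟨1, 0, 2, 0, 1, 0⟩, ⟨2, 0, 0, 0, 2, 0⟩,
   ⟨2, 0, 1, 0, 1, 0⟩, ⟨3, 0, 0, 0, 1, 0⟩, ⟨0, 0, 0, 0, 3, 0⟩, ⟨0, 0, 1, 0, 2, 0⟩, ⟨0, 0, 2, 0, 1, 0⟩, ⟨0, 0, 3, 0, 0, 0⟩,
   ⟨1, 0, 0, 0, 2, 0⟩, ⟨1, 0, 1, 0, 1, 0⟩, ⟨1, 0, 2, 0, 0, 0⟩, ⟨2, 0, 0, 0, 1, 0⟩, ⟨2, 0, 1, 0, 0, 0⟩, ⟨3, 0, 0, 0, 0, 0⟩,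
   ⟨0, 0, 0, 0, 2, 0⟩, ⟨0, 0, 1, 0, 1, 0⟩, ⟨0, 0, 2, 0, 0, 0⟩, ⟨1, 0, 0, 0, 1, 0⟩, ⟨1, 0, 1, 0, 0, 0⟩, ⟨2, 0, 0, 0, 0, 0⟩,
   ⟨0, 0, 0, 0, 1, 0⟩, ⟨0, 0, 1, 0, 0, 0⟩, ⟨1, 0, 0, 0, 0, 0⟩, ⟨0, 0, 0, 0, 0, 0⟩]

/-- primary component -/
def q3 : List M6 :=
  [⟨0, 0, 0, 0, 0, 8⟩, ⟨0, 1, 0, 0, 0, 6⟩, ⟨0, 2, 0, 0, 0, 4⟩, ⟨0, 3, 0, 0, 0, 2⟩, ⟨0, 4, 0, 0, 0, 0⟩, ⟨2, 0, 0, 0, 0, 6⟩,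
   ⟨2, 1, 0, 0, 0, 4⟩, ⟨2, 2, 0, 0, 0, 2⟩, ⟨2, 3, 0, 0, 0, 0⟩, ⟨4, 0, 0, 0, 0, 4⟩, ⟨4, 1, 0, 0, 0, 2⟩, ⟨4, 2, 0, 0, 0, 0⟩,
   ⟨6, 0, 0, 0, 0, 2⟩, ⟨6, 1, 0, 0, 0, 0⟩, ⟨8, 0, 0, 0, 0, 0⟩]

/-- chain for `q3` -/
def c3 : List M6 :=
  [⟨1, 0, 0, 0, 0, 7⟩, ⟨3, 0, 0, 0, 0, 5⟩, ⟨5, 0, 0, 0, 0, 3⟩, ⟨7, 0, 0, 0, 0, 1⟩, ⟨0, 0, 0, 0, 0, 7⟩, ⟨1, 0, 0, 0, 0, 6⟩,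
   ⟨1, 1, 0, 0, 0, 5⟩, ⟨2, 0, 0, 0, 0, 5⟩, ⟨3, 0, 0, 0, 0, 4⟩, ⟨3, 1, 0, 0, 0, 3⟩, ⟨4, 0, 0, 0, 0, 3⟩, ⟨5, 0, 0, 0, 0, 2⟩,
   ⟨5, 1, 0, 0, 0, 1⟩, ⟨6, 0, 0, 0, 0, 1⟩, ⟨7, 0, 0, 0, 0, 0⟩, ⟨0, 0, 0, 0, 0, 6⟩, ⟨0, 1, 0, 0, 0, 5⟩, ⟨1, 0, 0, 0, 0, 5⟩,
   ⟨1, 1, 0, 0, 0, 4⟩, ⟨1, 2, 0, 0, 0, 3⟩, ⟨2, 0, 0, 0, 0, 4⟩, ⟨2, 1, 0, 0, 0, 3⟩, ⟨3, 0, 0, 0, 0, 3⟩, ⟨3, 1, 0, 0, 0, 2⟩,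
   ⟨3, 2, 0, 0, 0, 1⟩, ⟨4, 0, 0, 0, 0, 2⟩, ⟨4, 1, 0, 0, 0, 1⟩, ⟨5, 0, 0, 0, 0, 1⟩, ⟨5, 1, 0, 0, 0, 0⟩, ⟨6, 0, 0, 0, 0, 0⟩,
   ⟨0, 0, 0, 0, 0, 5⟩, ⟨0, 1, 0, 0, 0, 4⟩, ⟨0, 2, 0, 0, 0, 3⟩, ⟨1, 0, 0, 0, 0, 4⟩, ⟨1, 1, 0, 0, 0, 3⟩, ⟨1, 2, 0, 0, 0, 2⟩,
   ⟨1, 3, 0, 0, 0, 1⟩, ⟨2, 0, 0, 0, 0, 3⟩, ⟨2, 1, 0, 0, 0, 2⟩, ⟨2, 2, 0, 0, 0, 1⟩, ⟨3, 0, 0, 0, 0, 2⟩, ⟨3, 1, 0, 0, 0, 1⟩,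
   ⟨3, 2, 0, 0, 0, 0⟩, ⟨4, 0, 0, 0, 0, 1⟩, ⟨4, 1, 0, 0, 0, 0⟩, ⟨5, 0, 0, 0, 0, 0⟩, ⟨0, 0, 0, 0, 0, 4⟩, ⟨0, 1, 0, 0, 0, 3⟩,
   ⟨0, 2, 0, 0, 0, 2⟩, ⟨0, 3, 0, 0, 0, 1⟩, ⟨1, 0, 0, 0, 0, 3⟩, ⟨1, 1, 0, 0, 0, 2⟩, ⟨1, 2, 0, 0, 0, 1⟩, ⟨1, 3, 0, 0, 0, 0⟩,
   ⟨2, 0, 0, 0, 0, 2⟩, ⟨2, 1, 0, 0, 0, 1⟩, ⟨2, 2, 0, 0, 0, 0⟩, ⟨3, 0, 0, 0, 0, 1⟩, ⟨3, 1, 0, 0, 0, 0⟩, ⟨4, 0, 0, 0, 0, 0⟩,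
   ⟨0, 0, 0, 0, 0, 3⟩, ⟨0, 1, 0, 0, 0, 2⟩, ⟨0, 2, 0, 0, 0, 1⟩, ⟨0, 3, 0, 0, 0, 0⟩, ⟨1, 0, 0, 0, 0, 2⟩, ⟨1, 1, 0, 0, 0, 1⟩,
   ⟨1, 2, 0, 0, 0, 0⟩, ⟨2, 0, 0, 0, 0, 1⟩, ⟨2, 1, 0, 0, 0, 0⟩, ⟨3, 0, 0, 0, 0, 0⟩, ⟨0, 0, 0, 0, 0, 2⟩, ⟨0, 1, 0, 0, 0, 1⟩,
   ⟨0, 2, 0, 0, 0, 0⟩, ⟨1, 0, 0, 0, 0, 1⟩, ⟨1, 1, 0, 0, 0, 0⟩, ⟨2, 0, 0, 0, 0, 0⟩, ⟨0, 0, 0, 0, 0, 1⟩, ⟨0, 1, 0, 0, 0, 0⟩,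
   ⟨1, 0, 0, 0, 0, 0⟩, ⟨0, 0, 0, 0, 0, 0⟩]

/-- primary component -/
def q4 : List M6 :=
  [⟨0, 0, 0, 0, 0, 8⟩, ⟨0, 0, 0, 2, 0, 6⟩, ⟨0, 0, 0, 4, 0, 4⟩, ⟨0, 0, 0, 6, 0, 2⟩, ⟨0, 0, 0, 8, 0, 0⟩, ⟨0, 1, 0, 0, 0, 6⟩,
   ⟨0, 1, 0, 2, 0, 4⟩, ⟨0, 1, 0, 4, 0, 2⟩, ⟨0, 1, 0, 6, 0, 0⟩, ⟨0, 2, 0, 0, 0, 4⟩, ⟨0, 2, 0, 2, 0, 2⟩, ⟨0, 2, 0, 4, 0, 0⟩,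
   ⟨0, 3, 0, 0, 0, 2⟩, ⟨0, 3, 0, 2, 0, 0⟩, ⟨0, 4, 0, 0, 0, 0⟩]

/-- chain for `q4` -/
def c4 : List M6 :=
  [⟨0, 0, 0, 1, 0, 7⟩, ⟨0, 0, 0, 3, 0, 5⟩, ⟨0, 0, 0, 5, 0, 3⟩, ⟨0, 0, 0, 7, 0, 1⟩, ⟨0, 0, 0, 0, 0, 7⟩, ⟨0, 0, 0, 1, 0, 6⟩,
   ⟨0, 0, 0, 2, 0, 5⟩, ⟨0, 0, 0, 3, 0, 4⟩, ⟨0, 0, 0, 4, 0, 3⟩, ⟨0, 0, 0, 5, 0, 2⟩, ⟨0, 0, 0, 6, 0, 1⟩, ⟨0, 0, 0, 7, 0, 0⟩,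
   ⟨0, 1, 0, 1, 0, 5⟩, ⟨0, 1, 0, 3, 0, 3⟩, ⟨0, 1, 0, 5, 0, 1⟩, ⟨0, 0, 0, 0, 0, 6⟩, ⟨0, 0, 0, 1, 0, 5⟩, ⟨0, 0, 0, 2, 0, 4⟩,
   ⟨0, 0, 0, 3, 0, 3⟩, ⟨0, 0, 0, 4, 0, 2⟩, ⟨0, 0, 0, 5, 0, 1⟩, ⟨0, 0, 0, 6, 0, 0⟩, ⟨0, 1, 0, 0, 0, 5⟩, ⟨0, 1, 0, 1, 0, 4⟩,
   ⟨0, 1, 0, 2, 0, 3⟩, ⟨0, 1, 0, 3, 0, 2⟩, ⟨0, 1, 0, 4, 0, 1⟩, ⟨0, 1, 0, 5, 0, 0⟩, ⟨0, 2, 0, 1, 0, 3⟩, ⟨0, 2, 0, 3, 0, 1⟩,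
   ⟨0, 0, 0, 0, 0, 5⟩, ⟨0, 0, 0, 1, 0, 4⟩, ⟨0, 0, 0, 2, 0, 3⟩, ⟨0, 0, 0, 3, 0, 2⟩, ⟨0, 0, 0, 4, 0, 1⟩, ⟨0, 0, 0, 5, 0, 0⟩,
   ⟨0, 1, 0, 0, 0, 4⟩, ⟨0, 1, 0, 1, 0, 3⟩, ⟨0, 1, 0, 2, 0, 2⟩, ⟨0, 1, 0, 3, 0, 1⟩, ⟨0, 1, 0, 4, 0, 0⟩, ⟨0, 2, 0, 0, 0, 3⟩,
   ⟨0, 2, 0, 1, 0, 2⟩, ⟨0, 2, 0, 2, 0, 1⟩, ⟨0, 2, 0, 3, 0, 0⟩, ⟨0, 3, 0, 1, 0, 1⟩, ⟨0, 0, 0, 0, 0, 4⟩, ⟨0, 0, 0, 1, 0, 3⟩,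
   ⟨0, 0, 0, 2, 0, 2⟩, ⟨0, 0, 0, 3, 0, 1⟩, ⟨0, 0, 0, 4, 0, 0⟩, ⟨0, 1, 0, 0, 0, 3⟩, ⟨0, 1, 0, 1, 0, 2⟩, ⟨0, 1, 0, 2, 0, 1⟩,
   ⟨0, 1, 0, 3, 0, 0⟩, ⟨0, 2, 0, 0, 0, 2⟩, ⟨0, 2, 0, 1, 0, 1⟩, ⟨0, 2, 0, 2, 0, 0⟩, ⟨0, 3, 0, 0, 0, 1⟩, ⟨0, 3, 0, 1, 0, 0⟩,
   ⟨0, 0, 0, 0, 0, 3⟩, ⟨0, 0, 0, 1, 0, 2⟩, ⟨0, 0, 0, 2, 0, 1⟩, ⟨0, 0, 0, 3, 0, 0⟩, ⟨0, 1, 0, 0, 0, 2⟩, ⟨0, 1, 0, 1, 0, 1⟩,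
   ⟨0, 1, 0, 2, 0, 0⟩, ⟨0, 2, 0, 0, 0, 1⟩, ⟨0, 2, 0, 1, 0, 0⟩, ⟨0, 3, 0, 0, 0, 0⟩, ⟨0, 0, 0, 0, 0, 2⟩, ⟨0, 0, 0, 1, 0, 1⟩,
   ⟨0, 0, 0, 2, 0, 0⟩, ⟨0, 1, 0, 0, 0, 1⟩, ⟨0, 1, 0, 1, 0, 0⟩, ⟨0, 2, 0, 0, 0, 0⟩, ⟨0, 0, 0, 0, 0, 1⟩, ⟨0, 0, 0, 1, 0, 0⟩,
   ⟨0, 1, 0, 0, 0, 0⟩, ⟨0, 0, 0, 0, 0, 0⟩]

/-- partial intersection -/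
def i1 : List M6 :=
  [⟨0, 0, 8, 0, 0, 0⟩, ⟨0, 1, 7, 0, 0, 0⟩, ⟨0, 2, 6, 0, 0, 0⟩, ⟨0, 3, 5, 0, 0, 0⟩, ⟨0, 4, 4, 0, 0, 0⟩, ⟨0, 5, 3, 0, 0, 0⟩,
   ⟨0, 6, 2, 0, 0, 0⟩, ⟨0, 7, 1, 0, 0, 0⟩, ⟨0, 8, 0, 0, 0, 0⟩, ⟨1, 1, 6, 0, 0, 0⟩, ⟨1, 2, 5, 0, 0, 0⟩, ⟨1, 3, 4, 0, 0, 0⟩,
   ⟨1, 4, 3, 0, 0, 0⟩, ⟨1, 5, 2, 0, 0, 0⟩, ⟨1, 6, 1, 0, 0, 0⟩, ⟨1, 7, 0, 0, 0, 0⟩, ⟨2, 0, 6, 2, 0, 0⟩, ⟨2, 1, 5, 2, 0, 0⟩,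
   ⟨2, 2, 4, 0, 0, 0⟩, ⟨2, 3, 3, 0, 0, 0⟩, ⟨2, 4, 2, 0, 0, 0⟩, ⟨2, 5, 1, 0, 0, 0⟩, ⟨2, 6, 0, 0, 0, 0⟩, ⟨3, 1, 4, 2, 0, 0⟩,
   ⟨3, 2, 3, 2, 0, 0⟩, ⟨3, 3, 2, 0, 0, 0⟩, ⟨3, 4, 1, 0, 0, 0⟩, ⟨3, 5, 0, 0, 0, 0⟩, ⟨4, 0, 4, 4, 0, 0⟩, ⟨4, 1, 3, 4, 0, 0⟩,
   ⟨4, 2, 2, 2, 0, 0⟩, ⟨4, 3, 1, 2, 0, 0⟩, ⟨4, 4, 0, 0, 0, 0⟩, ⟨5, 1, 2, 4, 0, 0⟩, ⟨5, 2, 1, 4, 0, 0⟩, ⟨5, 3, 0, 2, 0, 0⟩,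
   ⟨6, 0, 2, 6, 0, 0⟩, ⟨6, 1, 1, 6, 0, 0⟩, ⟨6, 2, 0, 4, 0, 0⟩, ⟨7, 1, 0, 6, 0, 0⟩, ⟨8, 0, 0, 8, 0, 0⟩]

/-- partial intersection -/
def i2 : List M6 :=
  [⟨0, 0, 8, 0, 0, 0⟩, ⟨0, 1, 7, 0, 0, 0⟩, ⟨0, 2, 6, 0, 0, 0⟩, ⟨0, 3, 5, 0, 0, 0⟩, ⟨0, 4, 4, 0, 0, 0⟩, ⟨0, 5, 3, 0, 2, 0⟩,
   ⟨0, 6, 2, 0, 4, 0⟩, ⟨0, 7, 1, 0, 6, 0⟩, ⟨0, 8, 0, 0, 8, 0⟩, ⟨1, 1, 6, 0, 0, 0⟩, ⟨1, 2, 5, 0, 0, 0⟩, ⟨1, 3, 4, 0, 0, 0⟩,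
   ⟨1, 4, 3, 0, 0, 0⟩, ⟨1, 5, 2, 0, 2, 0⟩, ⟨1, 6, 1, 0, 4, 0⟩, ⟨1, 7, 0, 0, 6, 0⟩, ⟨2, 0, 6, 2, 0, 0⟩, ⟨2, 1, 5, 2, 0, 0⟩,
   ⟨2, 2, 4, 0, 0, 0⟩, ⟨2, 3, 3, 0, 0, 0⟩, ⟨2, 4, 2, 0, 0, 0⟩, ⟨2, 5, 1, 0, 2, 0⟩, ⟨2, 6, 0, 0, 4, 0⟩, ⟨3, 1, 4, 2, 0, 0⟩,
   ⟨3, 2, 3, 2, 0, 0⟩, ⟨3, 3, 2, 0, 0, 0⟩, ⟨3, 4, 1, 0, 0, 0⟩, ⟨3, 5, 0, 0, 2, 0⟩, ⟨4, 0, 4, 4, 0, 0⟩, ⟨4, 1, 3, 4, 0, 0⟩,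
   ⟨4, 2, 2, 2, 0, 0⟩, ⟨4, 3, 1, 2, 0, 0⟩, ⟨4, 4, 0, 0, 0, 0⟩, ⟨5, 1, 2, 4, 0, 0⟩, ⟨5, 2, 1, 4, 0, 0⟩, ⟨5, 3, 0, 2, 0, 0⟩,
   ⟨6, 0, 2, 6, 0, 0⟩, ⟨6, 1, 1, 6, 0, 0⟩, ⟨6, 2, 0, 4, 0, 0⟩, ⟨7, 1, 0, 6, 0, 0⟩, ⟨8, 0, 0, 8, 0, 0⟩]

/-- partial intersection -/
def i3 : List M6 :=
  [⟨0, 0, 8, 0, 0, 8⟩, ⟨0, 1, 7, 0, 0, 6⟩, ⟨0, 2, 6, 0, 0, 4⟩, ⟨0, 3, 5, 0, 0, 2⟩, ⟨0, 4, 4, 0, 0, 0⟩, ⟨0, 5, 3, 0, 2, 0⟩,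
   ⟨0, 6, 2, 0, 4, 0⟩, ⟨0, 7, 1, 0, 6, 0⟩, ⟨0, 8, 0, 0, 8, 0⟩, ⟨1, 1, 6, 0, 0, 6⟩, ⟨1, 2, 5, 0, 0, 4⟩, ⟨1, 3, 4, 0, 0, 2⟩,
   ⟨1, 4, 3, 0, 0, 0⟩, ⟨1, 5, 2, 0, 2, 0⟩, ⟨1, 6, 1, 0, 4, 0⟩, ⟨1, 7, 0, 0, 6, 0⟩, ⟨2, 0, 6, 2, 0, 6⟩, ⟨2, 0, 8, 0, 0, 6⟩,
   ⟨2, 1, 5, 2, 0, 4⟩, ⟨2, 1, 6, 0, 0, 4⟩, ⟨2, 2, 4, 0, 0, 2⟩, ⟨2, 3, 3, 0, 0, 0⟩, ⟨2, 4, 2, 0, 0, 0⟩, ⟨2, 5, 1, 0, 2, 0⟩,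
   ⟨2, 6, 0, 0, 4, 0⟩, ⟨3, 1, 4, 2, 0, 4⟩, ⟨3, 2, 3, 2, 0, 2⟩, ⟨3, 3, 2, 0, 0, 0⟩, ⟨3, 4, 1, 0, 0, 0⟩, ⟨3, 5, 0, 0, 2, 0⟩,
   ⟨4, 0, 4, 4, 0, 4⟩, ⟨4, 0, 6, 2, 0, 4⟩, ⟨4, 0, 8, 0, 0, 4⟩, ⟨4, 1, 3, 4, 0, 2⟩, ⟨4, 1, 4, 2, 0, 2⟩, ⟨4, 1, 6, 0, 0, 2⟩,
   ⟨4, 2, 2, 2, 0, 0⟩, ⟨4, 2, 4, 0, 0, 0⟩, ⟨4, 3, 1, 2, 0, 0⟩, ⟨4, 4, 0, 0, 0, 0⟩, ⟨5, 1, 2, 4, 0, 2⟩, ⟨5, 2, 1, 4, 0, 0⟩,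
   ⟨5, 3, 0, 2, 0, 0⟩, ⟨6, 0, 2, 6, 0, 2⟩, ⟨6, 0, 4, 4, 0, 2⟩, ⟨6, 0, 6, 2, 0, 2⟩, ⟨6, 0, 8, 0, 0, 2⟩, ⟨6, 1, 1, 6, 0, 0⟩,
   ⟨6, 1, 2, 4, 0, 0⟩, ⟨6, 1, 4, 2, 0, 0⟩, ⟨6, 1, 6, 0, 0, 0⟩, ⟨6, 2, 0, 4, 0, 0⟩, ⟨7, 1, 0, 6, 0, 0⟩, ⟨8, 0, 0, 8, 0, 0⟩,
   ⟨8, 0, 2, 6, 0, 0⟩, ⟨8, 0, 4, 4, 0, 0⟩, ⟨8, 0, 6, 2, 0, 0⟩, ⟨8, 0, 8, 0, 0, 0⟩]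

lemma hg2 : (covers (prods g1 g1) g2 && covers g2 (prods g1 g1)) = true := by decide +kernel

lemma hg4 : (covers (prods g2 g2) g4 && covers g4 (prods g2 g2)) = true := by decide +kernel

lemma hch2 : chk g2 ch2 = true := by decide +kernel

lemma hc0 : chkN (false, false, false) q0 c0 = true := by decide +kernel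

lemma hc1 : chkN (true, false, false) q1 c1 = true := by decide +kernel

lemma hc2 : chkN (false, true, false) q2 c2 = true := by decide +kernel

lemma hc3 : chkN (false, false, true) q3 c3 = true := by decide +kernel

lemma hc4 : chkN (true, false, true) q4 c4 = true := by decide +kernel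

lemma hq0 : covers q0 g4 = true := by decide +kernel

lemma hq1 : covers q1 g4 = true := by decide +kernel

lemma hq2 : covers q2 g4 = true := by decide +kernel

lemma hq3 : covers q3 g4 = true := by decide +kernel

lemma hq4 : covers q4 g4 = true := by decide +kernel

lemma hi1 : infchk q0 q1 i1 = true := by decide +kernel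

lemma hi2 : infchk i1 q2 i2 = true := by decide +kernel

lemma hi3 : infchk i2 q3 i3 = true := by decide +kernel

lemma hi4 : infchk i3 q4 g4 = true := by decide +kernel

end Q37.WP
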