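import Pool.Agent.Q37.TW.Defs

/-! # Very well-covered graphs and unmixed ideals -/

set_option autoImplicit false

namespace Q37.WP

/-- `G` is very well-covered: no isolated vertices, an even number of vertices, and every maximal
independent set has exactly half of the vertices. -/
def VeryWellCovered {V : Type} [Fintype V] (G : SimpleGraph V) : Prop :=
  (∀ v, ∃ w, G.Adj v w) ∧ Even (Fintype.card V) ∧
    ∀ s : Set V, Maximal (fun s => G.IsIndepSet s) s → 2 * s.ncard = Fintype.card V

/-- `I` is unmixed: all associated primes of `R ⧸ I` have the same height. -/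
def IsUnmixed {R : Type} [CommRing R] (I : Ideal R) : Prop :=
  ∀ P ∈ associatedPrimes R (R ⧸ I), ∀ Q ∈ associatedPrimes R (R ⧸ I), P.height = Q.height

end Q37.WP
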