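import Pool.Agent.H379R3.Reg
import Pool.Agent.Q37.TW.Defs

/-! # Finite flat algebras over regular rings are Cohen–Macaulay -/

set_option autoImplicit false

namespace Q37.WP

open IsLocalRing RingTheory.Sequence Pointwise

universe u

lemma quot_reg {B : Type u} [CommRing B] (t : B) (rs : List B)
    (h : IsWeaklyRegular (B ⧸ Ideal.span {t}) (rs.map (Ideal.Quotient.mk (Ideal.span {t})))) :
    IsWeaklyRegular (QuotSMulTop t B) rs := by
  have h1 : IsWeaklyRegular (B ⧸ Ideal.span {t}) rs :=
    (isWeaklyRegular_map_algebraMap_iff (M := B ⧸ Ideal.span {t}) (R := B)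
      (S := B ⧸ Ideal.span {t}) rs).1 h
  have e : Ideal.span {t} = (t • ⊤ : Submodule B B) := by
    rw [← Submodule.ideal_span_singleton_smul, smul_eq_mul, Ideal.mul_top]
  exact ((Submodule.quotEquivOfEq _ _ e).isWeaklyRegular_congr rs).1 h1

theorem exists_regular_seq (d : ℕ) : ∀ (B : Type u) [CommRing B] [IsRegularLocalRing B],
    ringKrullDim B = (d : ℕ) →
    ∃ rs : List B, IsWeaklyRegular B rs ∧ Ideal.ofList rs = maximalIdeal B := by
  induction d with
  | zero =>
    intro B _ _ h
    refine ⟨[], IsWeaklyRegular.nil _ _, ?_⟩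
    rw [Pool.Agent.H379R3.dim_zero_maximalIdeal_eq_bot h, Ideal.ofList_nil]
  | succ d ih =>
    intro B _ _ h
    have hnle : ¬ maximalIdeal B ≤ maximalIdeal B ^ 2 := by
      intro hle
      have h0 : maximalIdeal B = ⊥ := by
        have : maximalIdeal B ≤ maximalIdeal B • maximalIdeal B := by
          rw [smul_eq_mul, ← pow_two]; exact hle
        exact Submodule.eq_bot_of_le_smul_of_le_jacobson_bot (maximalIdeal B) (maximalIdeal B)
          (maximalIdeal B).fg_of_isNoetherianRing this (maximalIdeal_le_jacobson _)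
      have h1 := maximalIdeal_height_eq_ringKrullDim (R := B)
      have hdom := Pool.Agent.H379R3.isDomain B
      rw [h0, Ideal.height_bot, h] at h1
      have : ((0 : ℕ∞) : WithBot ℕ∞) = ((d + 1 : ℕ) : ℕ∞) := h1
      have h2 : (0 : ℕ∞) = ((d + 1 : ℕ) : ℕ∞) := by exact_mod_cast this
      have h3 : 0 = d + 1 := by exact_mod_cast h2
      omega
    obtain ⟨t, ht, ht2⟩ := SetLike.not_le_iff_exists.1 hnle
    obtain ⟨hreg, hdim⟩ := Pool.Agent.H379R3.regular_quotient t ht ht2 d h
    obtain ⟨rs', h1, h2⟩ := ih (B ⧸ Ideal.span {t}) hdim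
    have hdom := Pool.Agent.H379R3.isDomain B
    have hs : Function.Surjective (Ideal.Quotient.mk (Ideal.span {t})) := Ideal.Quotient.mk_surjective
    obtain ⟨rs, rfl⟩ : ∃ rs : List B, rs.map (Ideal.Quotient.mk (Ideal.span {t})) = rs' :=
      List.map_surjective_iff.2 hs rs'
    refine ⟨t :: rs, ?_, ?_⟩
    · rw [isWeaklyRegular_cons_iff]
      refine ⟨?_, quot_reg t rs h1⟩
      have ht0 : t ≠ 0 := by
        rintro rfl
        exact ht2 (zero_mem _)
      intro a b hab
      exact mul_left_cancel₀ ht0 hab
    · rw [Ideal.ofList_cons]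
      rw [← Ideal.map_ofList] at h2
      have hmax : (maximalIdeal B).map (Ideal.Quotient.mk (Ideal.span {t})) =
          maximalIdeal (B ⧸ Ideal.span {t}) :=
        IsLocalRing.map_maximalIdeal_of_surjective _ hs
      rw [← hmax] at h2
      have h3 := congrArg (Ideal.comap (Ideal.Quotient.mk (Ideal.span {t}))) h2
      rw [Ideal.comap_map_quotientMk, Ideal.comap_map_quotientMk] at h3
      rw [h3, sup_eq_right.2]
      rw [Ideal.span_singleton_le_iff_mem]; exact ht

/-- a ring that is integral, flat and Noetherian over a regular ring is Cohen–Macaulay -/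
theorem cm_of_flat (S A : Type u) [CommRing S] [CommRing A] [Algebra S A] [IsRegularRing S]
    [IsNoetherianRing A] [Algebra.IsIntegral S A] [Module.Flat S A] :
    Q37.TW.IsCohenMacaulayRing A := by
  refine ⟨inferInstance, fun P hP => ?_⟩
  have hN : IsNoetherianRing (Localization.AtPrime P) :=
    IsLocalization.isNoetherianRing P.primeCompl _ inferInstance
  refine ⟨hN, ?_⟩
  set p : Ideal S := P.comap (algebraMap S A) with hp
  have hpp : p.IsPrime := Ideal.comap_isPrime _ _
  obtain ⟨d, hd⟩ := Pool.Agent.H379R3.exists_dim_eq (B := Localization.AtPrime p)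
  obtain ⟨rs, hrs, hmax⟩ := exists_regular_seq d (Localization.AtPrime p) hd
  let φ : Localization.AtPrime p →+* Localization.AtPrime P :=
    Localization.localRingHom p P (algebraMap S A) rfl
  have hflat : φ.Flat := RingHom.Flat.localRingHom (f := algebraMap S A)
    (by rw [RingHom.flat_algebraMap_iff]; infer_instance) P p rfl
  have hloc : IsLocalHom φ := Localization.isLocalHom_localRingHom p P (algebraMap S A) rfl
  have hmem : ∀ r ∈ rs.map φ, r ∈ maximalIdeal (Localization.AtPrime P) := by
    intro r hr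
    obtain ⟨s, hs, rfl⟩ := List.mem_map.1 hr
    have : s ∈ maximalIdeal (Localization.AtPrime p) := by
      rw [← hmax]; exact Ideal.subset_span hs
    exact map_nonunit φ s this
  have hw : IsWeaklyRegular (Localization.AtPrime P) (rs.map φ) := by
    algebraize [φ]
    exact IsWeaklyRegular.of_flat (S := Localization.AtPrime P) hrs
  have hreg : IsRegular (Localization.AtPrime P) (rs.map φ) :=
    IsRegular.of_isWeaklyRegular_of_mem_maximalIdeal _ hmem hw
  refine ⟨rs.map φ, hmem, hreg, ?_⟩
  have hdim := ringKrullDim_add_length_eq_ringKrullDim_of_isRegular _ hreg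
  have hle : Ideal.ofList (rs.map φ) ≤ maximalIdeal (Localization.AtPrime P) :=
    Ideal.span_le.2 hmem
  have hne : Ideal.ofList (rs.map φ) ≠ ⊤ := fun h =>
    (maximalIdeal.isMaximal (Localization.AtPrime P)).ne_top (top_le_iff.1 (h ▸ hle))
  have hnt : Nontrivial (Localization.AtPrime P ⧸ Ideal.ofList (rs.map φ)) :=
    Ideal.Quotient.nontrivial_iff.2 hne
  have key : ∀ Q : Ideal (Localization.AtPrime P), Q.IsPrime → Ideal.ofList (rs.map φ) ≤ Q →
      Q = maximalIdeal (Localization.AtPrime P) := by
    intro Q hQ hQle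
    set Q' : Ideal A := Q.comap (algebraMap A (Localization.AtPrime P)) with hQ'
    have hQp : Q'.IsPrime := Ideal.comap_isPrime _ _
    have h1 : Q' ≤ P := by
      intro x hx
      rw [← IsLocalization.AtPrime.to_map_mem_maximal_iff (Localization.AtPrime P) P]
      exact IsLocalRing.le_maximalIdeal hQ.ne_top hx
    have h2 : p ≤ Q'.comap (algebraMap S A) := by
      intro s hs
      have h3 : algebraMap S (Localization.AtPrime p) s ∈ maximalIdeal (Localization.AtPrime p) :=
        (IsLocalization.AtPrime.to_map_mem_maximal_iff (Localization.AtPrime p) p s).2 hs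
      rw [← hmax] at h3
      have h4 := Ideal.mem_map_of_mem φ h3
      rw [Ideal.map_ofList] at h4
      have h5 := hQle h4
      rw [Localization.localRingHom_to_map] at h5
      exact h5
    have h3 : P ≤ Q' := by
      intro x hx
      by_contra hxQ
      have h4 := Ideal.comap_lt_comap_of_integral_mem_sdiff (hI := hQp) h1 ⟨hx, hxQ⟩
        (Algebra.IsIntegral.isIntegral (R := S) x)
      exact absurd h2 (not_le_of_gt h4)
    apply le_antisymm (IsLocalRing.le_maximalIdeal hQ.ne_top)
    rw [← IsLocalization.AtPrime.map_eq_maximalIdeal P (Localization.AtPrime P),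
      Ideal.map_le_iff_le_comap]
    exact h3
  have h0 : Ring.KrullDimLE 0 (Localization.AtPrime P ⧸ Ideal.ofList (rs.map φ)) := by
    rw [Ring.krullDimLE_zero_iff]
    intro Q hQ
    have hs : Function.Surjective (Ideal.Quotient.mk (Ideal.ofList (rs.map φ))) :=
      Ideal.Quotient.mk_surjective
    have hQ' : (Q.comap (Ideal.Quotient.mk (Ideal.ofList (rs.map φ)))).IsPrime :=
      Ideal.comap_isPrime _ _
    have hle : Ideal.ofList (rs.map φ) ≤ Q.comap (Ideal.Quotient.mk (Ideal.ofList (rs.map φ))) := by
      intro a ha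
      rw [Ideal.mem_comap, Ideal.Quotient.eq_zero_iff_mem.2 ha]; exact zero_mem _
    have he := key _ hQ' hle
    have hM : (Q.comap (Ideal.Quotient.mk (Ideal.ofList (rs.map φ)))).IsMaximal :=
      he ▸ maximalIdeal.isMaximal _
    have := Ideal.map_comap_of_surjective _ hs Q
    rw [← this]
    refine (Ideal.map_eq_top_or_isMaximal_of_surjective _ hs hM).resolve_left ?_
    rw [this]; exact hQ.ne_top
  rw [ringKrullDimZero_iff_ringKrullDim_eq_zero.1 h0, zero_add] at hdim
  exact_mod_cast hdim

end Q37.WP
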