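import Pool.Agent.Q37.WP.NotCM

/-! # The whiskered path -/

set_option autoImplicit false

namespace Q37.WP

open MvPolynomial

/-- `x₁, x₂, x₃` are `0, 1, 2` and `y₁, y₂, y₃` are `3, 4, 5`. -/
def adjB : Fin 6 → Fin 6 → Bool := fun a b =>
  (a.val + 1 == b.val && b.val < 3) || (b.val + 1 == a.val && a.val < 3) ||
  (a.val + 3 == b.val) || (b.val + 3 == a.val)

def wt : Fin 6 → Fin 6 → ℕ := fun a b => if a.val < 3 ∧ b.val < 3 then 1 else 2

lemma adjB_symm : ∀ a b, adjB a b = adjB b a := by decide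

lemma wt_symm : ∀ a b, wt a b = wt b a := by decide

def GG : SimpleGraph (Fin 6) where
  Adj a b := adjB a b = true
  symm := ⟨fun a b h => by rw [adjB_symm]; exact h⟩
  loopless := ⟨by decide⟩

def ww : Sym2 (Fin 6) → ℕ := Sym2.lift ⟨wt, wt_symm⟩

lemma ww_mk (a b : Fin 6) : ww s(a, b) = wt a b := rfl

lemma ww_pos (e : Sym2 (Fin 6)) : 0 < ww e := by
  induction e with
  | _ a b => rw [ww_mk]; unfold wt; split_ifs <;> norm_num

lemma vwc_aux : ∀ s : Finset (Fin 6), (∀ a ∈ s, ∀ b ∈ s, adjB a b = false) →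
    (∀ v, v ∉ s → ∃ a ∈ s, adjB v a = true) → s.card = 3 := by decide +kernel

lemma vwc : VeryWellCovered GG := by
  classical
  refine ⟨?_, by decide, ?_⟩
  · show ∀ v, ∃ w, adjB v w = true
    decide
  · intro s hs
    have h1 : s.ncard = s.toFinset.card := Set.ncard_eq_toFinset_card' s
    have h2 : s.toFinset.card = 3 := by
      apply vwc_aux
      · intro a ha b hb
        rw [Set.mem_toFinset] at ha hb
        by_contra hne
        have hadj : GG.Adj a b := by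
          show adjB a b = true
          simpa using hne
        exact hs.prop ha hb (GG.ne_of_adj hadj) hadj
      · intro v hv
        rw [Set.mem_toFinset] at hv
        by_contra hcon
        push Not at hcon
        have hin : GG.IsIndepSet (insert v s) := by
          intro a ha b hb hab hadj
          rcases ha with rfl | ha <;> rcases hb with rfl | hb
          · exact hab rfl
          · exact hcon b (Set.mem_toFinset.2 hb) hadj
          · exact hcon a (Set.mem_toFinset.2 ha) (GG.adj_symm hadj)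
          · exact hs.prop ha hb hab hadj
        have := hs.le_of_ge hin (Set.subset_insert v s)
        exact hv (this (Set.mem_insert v s))
    rw [h1, h2]; rfl

variable (K : Type) [Field K]

lemma edge_cases : ∀ a b : Fin 6, adjB a b = true →
    ((a = 0 ∧ b = 1) ∨ (a = 1 ∧ b = 0) ∨ (a = 1 ∧ b = 2) ∨ (a = 2 ∧ b = 1) ∨
    (a = 0 ∧ b = 3) ∨ (a = 3 ∧ b = 0) ∨ (a = 1 ∧ b = 4) ∨ (a = 4 ∧ b = 1) ∨
    (a = 2 ∧ b = 5) ∨ (a = 5 ∧ b = 2)) := by decide

lemma I_eq : Q37.TW.weightedEdgeIdeal K GG ww = mi K g1 := by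
  apply le_antisymm
  · unfold Q37.TW.weightedEdgeIdeal
    rw [Ideal.span_le]
    rintro f ⟨a, b, hab, rfl⟩
    have k : ∀ (v : M6) (h : v ∈ g1) (f : MvPolynomial (Fin 6) K), mon K v = f → f ∈ mi K g1 := by
      intro v h f hf
      rw [← hf]; exact mon_mem K h
    rcases edge_cases a b hab with ⟨rfl, rfl⟩ | ⟨rfl, rfl⟩ | ⟨rfl, rfl⟩ | ⟨rfl, rfl⟩ | ⟨rfl, rfl⟩ |
      ⟨rfl, rfl⟩ | ⟨rfl, rfl⟩ | ⟨rfl, rfl⟩ | ⟨rfl, rfl⟩ | ⟨rfl, rfl⟩
    · exact k ⟨1, 1, 0, 0, 0, 0⟩ (by simp [g1]) _ (by rw [mon_eq, ww_mk, show wt 0 1 = 1 by decide]; ring)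
    · exact k ⟨1, 1, 0, 0, 0, 0⟩ (by simp [g1]) _ (by rw [mon_eq, ww_mk, show wt 1 0 = 1 by decide]; ring)
    · exact k ⟨0, 1, 1, 0, 0, 0⟩ (by simp [g1]) _ (by rw [mon_eq, ww_mk, show wt 1 2 = 1 by decide]; ring)
    · exact k ⟨0, 1, 1, 0, 0, 0⟩ (by simp [g1]) _ (by rw [mon_eq, ww_mk, show wt 2 1 = 1 by decide]; ring)
    · exact k ⟨2, 0, 0, 2, 0, 0⟩ (by simp [g1]) _ (by rw [mon_eq, ww_mk, show wt 0 3 = 2 by decide]; ring)
    · exact k ⟨2, 0, 0, 2, 0, 0⟩ (by simp [g1]) _ (by rw [mon_eq, ww_mk, show wt 3 0 = 2 by decide]; ring)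
    · exact k ⟨0, 2, 0, 0, 2, 0⟩ (by simp [g1]) _ (by rw [mon_eq, ww_mk, show wt 1 4 = 2 by decide]; ring)
    · exact k ⟨0, 2, 0, 0, 2, 0⟩ (by simp [g1]) _ (by rw [mon_eq, ww_mk, show wt 4 1 = 2 by decide]; ring)
    · exact k ⟨0, 0, 2, 0, 0, 2⟩ (by simp [g1]) _ (by rw [mon_eq, ww_mk, show wt 2 5 = 2 by decide]; ring)
    · exact k ⟨0, 0, 2, 0, 0, 2⟩ (by simp [g1]) _ (by rw [mon_eq, ww_mk, show wt 5 2 = 2 by decide]; ring)
  · have k : ∀ (a b : Fin 6) (f : MvPolynomial (Fin 6) K), adjB a b = true →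
        f = (X a * X b) ^ wt a b → f ∈ Q37.TW.weightedEdgeIdeal K GG ww := by
      intro a b f h hf
      exact Ideal.subset_span ⟨a, b, h, hf⟩
    apply mi_le_of
    intro v hv
    simp only [g1, List.mem_cons, List.not_mem_nil, or_false] at hv
    rcases hv with rfl | rfl | rfl | rfl | rfl
    · exact k 0 1 _ (by decide) (by rw [mon_eq, show wt 0 1 = 1 by decide]; ring)
    · exact k 1 2 _ (by decide) (by rw [mon_eq, show wt 1 2 = 1 by decide]; ring)
    · exact k 0 3 _ (by decide) (by rw [mon_eq, show wt 0 3 = 2 by decide]; ring)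
    · exact k 1 4 _ (by decide) (by rw [mon_eq, show wt 1 4 = 2 by decide]; ring)
    · exact k 2 5 _ (by decide) (by rw [mon_eq, show wt 2 5 = 2 by decide]; ring)

lemma I2_eq : Q37.TW.weightedEdgeIdeal K GG ww ^ 2 = mi K g2 := by
  rw [I_eq, pow_two, mi_mul, mi_eq K hg2]

lemma I4_eq : Q37.TW.weightedEdgeIdeal K GG ww ^ 4 = mi K g4 := by
  have : Q37.TW.weightedEdgeIdeal K GG ww ^ 4 =
      Q37.TW.weightedEdgeIdeal K GG ww ^ 2 * Q37.TW.weightedEdgeIdeal K GG ww ^ 2 := by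
    rw [← pow_add]
  rw [this, I2_eq, mi_mul, mi_eq K hg4]

attribute [local instance] sgAlg

theorem cm2 : Q37.TW.IsCohenMacaulayRing (MvPolynomial (Fin 6) K ⧸ mi K g2) := by
  obtain ⟨h1, h2⟩ := chk_free K ch2 g2 hch2
  exact cm_of_flat (MvPolynomial (Fin 3) K) _

end Q37.WP
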