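import Pool.Agent.Q37.WP.Step

/-! # A verified calculator for monomial ideals in six variables -/

set_option autoImplicit false

namespace Q37.WP

open MvPolynomial

/-- exponents `(x₁, x₂, x₃, y₁, y₂, y₃)` -/
structure M6 where
  a : ℕ
  b : ℕ
  c : ℕ
  d : ℕ
  e : ℕ
  f : ℕ

namespace M6

/-- exponent vector -/
noncomputable def toF (m : M6) : Fin 6 →₀ ℕ := Finsupp.equivFunOnFinite.symm ![m.a, m.b, m.c, m.d, m.e, m.f]

/-- divisibility -/
def le (g h : M6) : Bool :=
  g.a.ble h.a && g.b.ble h.b && g.c.ble h.c && g.d.ble h.d && g.e.ble h.e && g.f.ble h.f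

/-- product -/
def add (g h : M6) : M6 := ⟨g.a + h.a, g.b + h.b, g.c + h.c, g.d + h.d, g.e + h.e, g.f + h.f⟩

/-- truncated quotient -/
def sub (g h : M6) : M6 := ⟨g.a - h.a, g.b - h.b, g.c - h.c, g.d - h.d, g.e - h.e, g.f - h.f⟩

/-- maximum (avoiding `Nat.max`) -/
def mx (a b : ℕ) : ℕ := a + (b - a)

/-- least common multiple -/
def lcm (g h : M6) : M6 :=
  ⟨mx g.a h.a, mx g.b h.b, mx g.c h.c, mx g.d h.d, mx g.e h.e, mx g.f h.f⟩

lemma le_iff' (g h : M6) : le g h = true ↔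
    g.a ≤ h.a ∧ g.b ≤ h.b ∧ g.c ≤ h.c ∧ g.d ≤ h.d ∧ g.e ≤ h.e ∧ g.f ≤ h.f := by
  simp only [le, Bool.and_eq_true, Nat.ble_eq, and_assoc]

lemma toF_le (g : M6) (x : Fin 6 →₀ ℕ) : toF g ≤ x ↔
    g.a ≤ x 0 ∧ g.b ≤ x 1 ∧ g.c ≤ x 2 ∧ g.d ≤ x 3 ∧ g.e ≤ x 4 ∧ g.f ≤ x 5 := by
  rw [Finsupp.le_def]
  constructor
  · intro h
    exact ⟨h 0, h 1, h 2, h 3, h 4, h 5⟩
  · rintro ⟨h0, h1, h2, h3, h4, h5⟩ i
    fin_cases i
    · exact h0
    · exact h1
    · exact h2
    · exact h3
    · exact h4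
    · exact h5

lemma le_toF {g h : M6} (H : le g h = true) : toF g ≤ toF h := by
  rw [toF_le]
  exact (le_iff' g h).1 H

lemma toF_add (g h : M6) : toF (add g h) = toF g + toF h := by
  ext i; fin_cases i <;> rfl

lemma toF_sub_le (g v : M6) (x : Fin 6 →₀ ℕ) : toF (sub g v) ≤ x ↔ toF g ≤ x + toF v := by
  rw [toF_le, toF_le]
  simp only [sub, Finsupp.add_apply]
  have h0 : toF v 0 = v.a := rfl
  have h1 : toF v 1 = v.b := rfl
  have h2 : toF v 2 = v.c := rfl
  have h3 : toF v 3 = v.d := rfl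
  have h4 : toF v 4 = v.e := rfl
  have h5 : toF v 5 = v.f := rfl
  rw [h0, h1, h2, h3, h4, h5]
  omega

lemma toF_lcm_le {g h : M6} {x : Fin 6 →₀ ℕ} (h1 : toF g ≤ x) (h2 : toF h ≤ x) :
    toF (lcm g h) ≤ x := by
  rw [toF_le] at h1 h2 ⊢
  simp only [lcm, mx]
  omega

end M6

/-- every element of `L'` is a multiple of some element of `L` -/
def covers (L L' : List M6) : Bool := L'.all fun h => L.any fun g => g.le h

variable (K : Type) [Field K]

/-- the monomial ideal with generators `L` -/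
noncomputable def mi (L : List M6) : Ideal (MvPolynomial (Fin 6) K) :=
  Ideal.span ((fun s => monomial s (1 : K)) '' (M6.toF '' {m | m ∈ L}))

/-- a monomial -/
noncomputable def mon (v : M6) : MvPolynomial (Fin 6) K := monomial v.toF 1

lemma mem_mi {L : List M6} {f : MvPolynomial (Fin 6) K} :
    f ∈ mi K L ↔ ∀ x ∈ f.support, ∃ g ∈ L, g.toF ≤ x := by
  unfold mi
  rw [mem_ideal_span_monomial_image]
  constructor
  · intro h x hx
    obtain ⟨_, ⟨g, hg, rfl⟩, hle⟩ := h x hx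
    exact ⟨g, hg, hle⟩
  · intro h x hx
    obtain ⟨g, hg, hle⟩ := h x hx
    exact ⟨_, ⟨g, hg, rfl⟩, hle⟩

lemma mon_mem {L : List M6} {v : M6} (h : v ∈ L) : mon K v ∈ mi K L :=
  Ideal.subset_span ⟨_, ⟨v, h, rfl⟩, rfl⟩

lemma mi_le_of {L : List M6} {I : Ideal (MvPolynomial (Fin 6) K)} (h : ∀ v ∈ L, mon K v ∈ I) :
    mi K L ≤ I := by
  unfold mi
  rw [Ideal.span_le]
  rintro _ ⟨_, ⟨v, hv, rfl⟩, rfl⟩
  exact h v hv

lemma covers_iff {L L' : List M6} : covers L L' = true ↔ ∀ h ∈ L', ∃ g ∈ L, M6.le g h = true := by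
  simp only [covers, List.all_eq_true, List.any_eq_true]

lemma mi_le {L L' : List M6} (h : covers L L' = true) : mi K L' ≤ mi K L := by
  intro f hf
  rw [mem_mi] at hf ⊢
  intro x hx
  obtain ⟨g', hg', hle⟩ := hf x hx
  obtain ⟨g, hg, hle'⟩ := covers_iff.1 h g' hg'
  exact ⟨g, hg, (M6.le_toF hle').trans hle⟩

lemma mi_eq {L L' : List M6} (h : (covers L L' && covers L' L) = true) : mi K L = mi K L' := by
  rw [Bool.and_eq_true] at h
  exact le_antisymm (mi_le K h.2) (mi_le K h.1)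

lemma mem_mul_mon {L : List M6} {v : M6} {f : MvPolynomial (Fin 6) K} :
    f * mon K v ∈ mi K L ↔ f ∈ mi K (L.map fun g => g.sub v) := by
  rw [mem_mi, mem_mi]
  constructor
  · intro h x hx
    obtain ⟨g, hg, hle⟩ := h (x + v.toF) (by
      rw [mem_support_iff, mon, coeff_mul_monomial, mul_one]
      exact mem_support_iff.1 hx)
    exact ⟨g.sub v, List.mem_map.2 ⟨g, hg, rfl⟩, (M6.toF_sub_le g v x).2 hle⟩
  · intro h x hx
    rw [mem_support_iff, mon, coeff_mul_monomial', mul_one] at hx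
    split_ifs at hx with hle
    · obtain ⟨_, hg', hle'⟩ := h (x - v.toF) (mem_support_iff.2 hx)
      obtain ⟨g, hg, rfl⟩ := List.mem_map.1 hg'
      refine ⟨g, hg, ?_⟩
      rw [M6.toF_sub_le, tsub_add_cancel_of_le hle] at hle'
      exact hle'
    · exact absurd rfl hx

lemma mi_sup (L : List M6) (v : M6) : mi K L ⊔ Ideal.span {mon K v} = mi K (v :: L) := by
  apply le_antisymm
  · refine sup_le (mi_le_of K fun g hg => mon_mem K (List.mem_cons_of_mem _ hg)) ?_
    rw [Ideal.span_singleton_le_iff_mem]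
    exact mon_mem K (by simp)
  · refine mi_le_of K fun g hg => ?_
    rcases List.mem_cons.1 hg with rfl | hg
    · exact Submodule.mem_sup_right (Ideal.mem_span_singleton_self _)
    · exact Submodule.mem_sup_left (mon_mem K hg)

/-- add the generator `v` and discard its multiples -/
def ins (v : M6) (L : List M6) : List M6 := v :: L.filter fun g => !(v.le g)

lemma mi_ins (L : List M6) (v : M6) : mi K L ⊔ Ideal.span {mon K v} = mi K (ins v L) := by
  rw [mi_sup]
  apply le_antisymm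
  · apply mi_le
    rw [covers_iff]
    intro h hh
    rcases List.mem_cons.1 hh with rfl | hh
    · refine ⟨h, by simp [ins], ?_⟩
      rw [M6.le_iff']; simp
    · by_cases hv : M6.le v h = true
      · exact ⟨v, by simp [ins], hv⟩
      · refine ⟨h, ?_, ?_⟩
        · simp only [ins, List.mem_cons, List.mem_filter]
          right; exact ⟨hh, by simpa using hv⟩
        · rw [M6.le_iff']; simp
  · apply mi_le_of
    intro g hg
    apply mon_mem
    simp only [ins, List.mem_cons, List.mem_filter] at hg ⊢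
    tauto

lemma mi_one {L : List M6} (h : covers L [⟨0, 0, 0, 0, 0, 0⟩] = true) : mi K L = ⊤ := by
  rw [Ideal.eq_top_iff_one]
  apply mi_le K h
  have : (1 : MvPolynomial (Fin 6) K) = mon K ⟨0, 0, 0, 0, 0, 0⟩ := by
    unfold mon
    rw [show M6.toF ⟨0, 0, 0, 0, 0, 0⟩ = 0 by ext i; fin_cases i <;> rfl]
    rfl
  rw [this]
  exact mon_mem K (by simp)

/-- products of generators -/
def prods (L L' : List M6) : List M6 := L.flatMap fun g => L'.map fun h => g.add h

lemma mi_mul (L L' : List M6) : mi K L * mi K L' = mi K (prods L L') := by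
  have hm : ∀ g h, mon K (M6.add g h) = mon K g * mon K h := by
    intro g h
    unfold mon
    rw [monomial_mul, M6.toF_add, one_mul]
  apply le_antisymm
  · unfold mi
    rw [Ideal.span_mul_span', Ideal.span_le]
    rintro _ ⟨_, ⟨_, ⟨g, hg, rfl⟩, rfl⟩, _, ⟨_, ⟨h, hh, rfl⟩, rfl⟩, rfl⟩
    have := mon_mem K (L := prods L L') (v := g.add h) (by
      simp only [prods, List.mem_flatMap, List.mem_map]
      exact ⟨g, hg, h, hh, rfl⟩)
    rw [hm] at this
    exact this
  · apply mi_le_of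
    intro v hv
    simp only [prods, List.mem_flatMap, List.mem_map] at hv
    obtain ⟨g, hg, h, hh, rfl⟩ := hv
    rw [hm]
    exact Ideal.mul_mem_mul (mon_mem K hg) (mon_mem K hh)

/-- intersection check -/
def infchk (L L' L'' : List M6) : Bool := L.all fun g => L'.all fun h => L''.any fun k => k.le (g.lcm h)

lemma mi_inf {L L' L'' : List M6} (h : infchk L L' L'' = true) {f : MvPolynomial (Fin 6) K}
    (h1 : f ∈ mi K L) (h2 : f ∈ mi K L') : f ∈ mi K L'' := by
  simp only [infchk, List.all_eq_true, List.any_eq_true] at h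
  rw [mem_mi] at h1 h2 ⊢
  intro x hx
  obtain ⟨g, hg, hgx⟩ := h1 x hx
  obtain ⟨g', hg', hgx'⟩ := h2 x hx
  obtain ⟨k, hk, hle⟩ := h g hg g' hg'
  exact ⟨k, hk, (M6.le_toF hle).trans (M6.toF_lcm_le hgx hgx')⟩

end Q37.WP
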