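import Pool.Agent.Q37.WP.Un
import Pool.Agent.Q171.KT.CM

/-! # The fourth power is not Cohen–Macaulay -/

set_option autoImplicit false

namespace Q37.WP

open MvPolynomial IsLocalRing RingTheory.Sequence

section coeffs

variable (K : Type) [Field K]

lemma toF_sub (v w : M6) : M6.toF (v.sub w) = M6.toF v - M6.toF w := by
  ext i; fin_cases i <;> rfl

lemma toF_le_toF (v w : M6) : M6.toF w ≤ M6.toF v ↔ M6.le w v = true := by
  rw [M6.toF_le, M6.le_iff']; rfl

lemma coeff_mul_mon (p : MvPolynomial (Fin 6) K) (v w : M6) :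
    coeff v.toF (p * mon K w) = if M6.le w v = true then coeff (v.sub w).toF p else 0 := by
  unfold mon
  rw [coeff_mul_monomial', mul_one, toF_sub]
  simp only [toF_le_toF]

lemma coeff_mi {p : MvPolynomial (Fin 6) K} {L : List M6} (hp : p ∈ mi K L) {v : M6}
    (hv : covers L [v] = false) : coeff v.toF p = 0 := by
  by_contra hc
  obtain ⟨g, hg, hle⟩ := (mem_mi K).1 hp v.toF (mem_support_iff.2 hc)
  have : covers L [v] = true := by
    rw [covers_iff]
    intro h hh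
    rw [List.mem_singleton] at hh
    subst hh
    exact ⟨g, hg, (toF_le_toF h g).1 hle⟩
  rw [this] at hv
  exact absurd hv (by decide)

/-- the key non-membership -/
lemma key_not_mem {s r : MvPolynomial (Fin 6) K} (hs : constantCoeff s ≠ 0)
    (h : s * mon K ⟨5, 3, 2, 0, 0, 0⟩ -
      r * (mon K ⟨3, 0, 0, 0, 0, 0⟩ - mon K ⟨0, 0, 0, 2, 0, 0⟩) ∈ mi K g4) : False := by
  have h1 := coeff_mi K h (v := ⟨5, 3, 2, 0, 0, 0⟩) (by decide +kernel)
  have h2 := coeff_mi K h (v := ⟨2, 3, 2, 2, 0, 0⟩) (by decide +kernel)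
  rw [mul_sub, coeff_sub, coeff_sub, coeff_mul_mon, coeff_mul_mon, coeff_mul_mon] at h1 h2
  rw [if_pos (by decide), if_pos (by decide), if_neg (by decide)] at h1
  rw [if_neg (by decide), if_neg (by decide), if_pos (by decide)] at h2
  have e0 : M6.toF (M6.sub ⟨5, 3, 2, 0, 0, 0⟩ ⟨5, 3, 2, 0, 0, 0⟩) = 0 := by
    ext i; fin_cases i <;> rfl
  have e1 : M6.toF (M6.sub ⟨5, 3, 2, 0, 0, 0⟩ ⟨3, 0, 0, 0, 0, 0⟩) = M6.toF ⟨2, 3, 2, 0, 0, 0⟩ := rfl
  have e2 : M6.toF (M6.sub ⟨2, 3, 2, 2, 0, 0⟩ ⟨0, 0, 0, 2, 0, 0⟩) = M6.toF ⟨2, 3, 2, 0, 0, 0⟩ := rfl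
  rw [e0, e1] at h1
  rw [e2] at h2
  apply hs
  rw [constantCoeff_eq]
  linear_combination h1 + h2

lemma cc_of_not_mem {s : MvPolynomial (Fin 6) K} (hs : s ∉ pv K Finset.univ) :
    constantCoeff s ≠ 0 := by
  intro h0
  apply hs
  unfold pv
  rw [mem_ideal_span_X_image]
  intro m hm
  by_contra hc
  push Not at hc
  have : m = 0 := by ext i; exact hc i (by simp)
  subst this
  exact (mem_support_iff.1 hm) h0

end coeffs

section loc

variable (K : Type) [Field K]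

/-- the quotient ring -/
abbrev AA : Type := MvPolynomial (Fin 6) K ⧸ mi K g4

lemma g4_le_pv {S : Finset (Fin 6)} (hS : ({0, 1, 2} : Finset (Fin 6)) ⊆ S) : mi K g4 ≤ pv K S := by
  refine (mi_le K hq0).trans ?_
  refine le_trans ?_ (pv_mono K hS)
  have h : mi K (W (false, false, false)) = pv K {0, 1, 2} := mi_W K (false, false, false)
  rw [← h]
  exact mi_le K (by decide +kernel)

/-- image of `pv K S` in the quotient ring -/
noncomputable def qv (S : Finset (Fin 6)) : Ideal (AA K) := (pv K S).map (Ideal.Quotient.mk (mi K g4))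

lemma qv_comap {S : Finset (Fin 6)} (hS : ({0, 1, 2} : Finset (Fin 6)) ⊆ S) :
    (qv K S).comap (Ideal.Quotient.mk (mi K g4)) = pv K S := by
  unfold qv
  rw [Ideal.comap_map_quotientMk, sup_eq_right.2 (g4_le_pv K hS)]

lemma qv_prime {S : Finset (Fin 6)} (hS : ({0, 1, 2} : Finset (Fin 6)) ⊆ S) : (qv K S).IsPrime :=
  Ideal.map_isPrime_of_surjective Ideal.Quotient.mk_surjective (by
    rw [Ideal.mk_ker]; exact g4_le_pv K hS)

lemma qv_lt {S T : Finset (Fin 6)} (hS : ({0, 1, 2} : Finset (Fin 6)) ⊆ S) (h : S ⊆ T) {i : Fin 6}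
    (hT : i ∈ T) (hSi : i ∉ S) : qv K S < qv K T := by
  refine lt_of_le_not_ge (Ideal.map_mono (pv_mono K h)) fun hle => ?_
  have h1 := Ideal.comap_mono (f := Ideal.Quotient.mk (mi K g4)) hle
  rw [qv_comap K hS, qv_comap K (hS.trans h)] at h1
  exact hSi ((X_mem_pv K).1 (h1 ((X_mem_pv K).2 hT)))

/-- the maximal ideal of the origin -/
noncomputable def P0 : Ideal (AA K) := qv K Finset.univ

instance : (P0 K).IsPrime := qv_prime K (by decide)

lemma three_le : 3 ≤ (P0 K).height := by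
  have i0 := qv_prime K (S := {0, 1, 2}) (by decide)
  have i1 := qv_prime K (S := {0, 1, 2, 3}) (by decide)
  have i2 := qv_prime K (S := {0, 1, 2, 3, 4}) (by decide)
  have i3 : (qv K Finset.univ).IsPrime := qv_prime K (by decide)
  have l1 := Ideal.height_add_one_le_of_lt_of_isPrime
    (qv_lt K (S := {0, 1, 2}) (T := {0, 1, 2, 3}) (by decide) (by decide) (i := 3) (by decide) (by decide))
  have l2 := Ideal.height_add_one_le_of_lt_of_isPrime
    (qv_lt K (S := {0, 1, 2, 3}) (T := {0, 1, 2, 3, 4}) (by decide) (by decide) (i := 4) (by decide) (by decide))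
  have l3 := Ideal.height_add_one_le_of_lt_of_isPrime
    (qv_lt K (S := {0, 1, 2, 3, 4}) (T := Finset.univ) (by decide) (by decide) (i := 5) (by decide) (by decide))
  have : (3 : ℕ∞) ≤ (qv K {0, 1, 2}).height + 1 + 1 + 1 := by
    calc (3 : ℕ∞) = 0 + 1 + 1 + 1 := by norm_num
      _ ≤ _ := by gcongr; exact bot_le
  refine this.trans (le_trans ?_ l3)
  gcongr
  refine le_trans ?_ l2
  gcongr

variable (C : Type) [CommRing C] [IsLocalRing C] [Algebra (AA K) C] [IsLocalization.AtPrime C (P0 K)]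

/-- the map from the polynomial ring -/
noncomputable def cm : MvPolynomial (Fin 6) K →+* C :=
  (algebraMap (AA K) C).comp (Ideal.Quotient.mk (mi K g4))

omit [IsLocalRing C] [IsLocalization.AtPrime C (P0 K)] in
lemma cm_zero {f : MvPolynomial (Fin 6) K} (hf : f ∈ mi K g4) : cm K C f = 0 := by
  unfold cm
  rw [RingHom.comp_apply, Ideal.Quotient.eq_zero_iff_mem.2 hf, map_zero]

lemma max_C : maximalIdeal C = Ideal.span (Set.range fun i : Fin 6 => cm K C (X i)) := by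
  rw [← IsLocalization.AtPrime.map_eq_maximalIdeal (P0 K) C]
  unfold P0 qv pv
  rw [Finset.coe_univ, Set.image_univ, Ideal.map_span, Ideal.map_span, ← Set.range_comp,
    ← Set.range_comp]
  rfl

/-- the system of parameters -/
noncomputable def ys : List C :=
  [cm K C (X 0 ^ 3 - X 3 ^ 2), cm K C (X 2 ^ 3 - X 5 ^ 2), cm K C (X 1 - X 4)]

omit [IsLocalRing C] [IsLocalization.AtPrime C (P0 K)] in
lemma X_rad (i : Fin 6) : cm K C (X i) ∈ (Ideal.ofList (ys K C)).radical := by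
  set I := Ideal.ofList (ys K C) with hI
  have m1 : cm K C (X 0 ^ 3 - X 3 ^ 2) ∈ I := Ideal.subset_span (by simp [ys])
  have m2 : cm K C (X 2 ^ 3 - X 5 ^ 2) ∈ I := Ideal.subset_span (by simp [ys])
  have m3 : cm K C (X 1 - X 4) ∈ I := Ideal.subset_span (by simp [ys])
  have z1 : cm K C (X 0 ^ 8 * X 3 ^ 8) = 0 := cm_zero K C (by
    have : mon K ⟨8, 0, 0, 8, 0, 0⟩ = X 0 ^ 8 * X 3 ^ 8 := by rw [mon_eq]; ring
    rw [← this]; exact mon_mem K (by simp [g4]))
  have z2 : cm K C (X 1 ^ 8 * X 4 ^ 8) = 0 := cm_zero K C (by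
    have : mon K ⟨0, 8, 0, 0, 8, 0⟩ = X 1 ^ 8 * X 4 ^ 8 := by rw [mon_eq]; ring
    rw [← this]; exact mon_mem K (by simp [g4]))
  have z3 : cm K C (X 2 ^ 8 * X 5 ^ 8) = 0 := cm_zero K C (by
    have : mon K ⟨0, 0, 8, 0, 0, 8⟩ = X 2 ^ 8 * X 5 ^ 8 := by rw [mon_eq]; ring
    rw [← this]; exact mon_mem K (by simp [g4]))
  rw [map_mul, map_pow, map_pow] at z1 z2 z3
  rw [map_sub, map_pow, map_pow] at m1 m2
  rw [map_sub] at m3
  have gen : ∀ a b : C, a ^ 3 - b ^ 2 ∈ I → a ^ 8 * b ^ 8 = 0 → a ∈ I.radical ∧ b ∈ I.radical := by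
    intro a b h1 h2
    have ha : a ∈ I.radical := by
      refine ⟨20, ?_⟩
      have e : a ^ 20 = (a ^ 3 - b ^ 2) * (a ^ 8 * (a ^ 9 + a ^ 6 * b ^ 2 + a ^ 3 * b ^ 4 + b ^ 6)) +
          a ^ 8 * b ^ 8 := by ring
      rw [e, h2, add_zero]
      exact Ideal.mul_mem_right _ _ h1
    refine ⟨ha, ?_⟩
    apply Ideal.radical_isRadical I
    refine ⟨2, ?_⟩
    have e : b ^ 2 = a ^ 2 * a - (a ^ 3 - b ^ 2) := by ring
    rw [e]
    exact sub_mem (Ideal.mul_mem_left _ _ ha) (Ideal.le_radical h1)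
  have h1 : cm K C (X 1) ∈ I.radical := by
    refine ⟨16, ?_⟩
    have e : (cm K C (X 1)) ^ 16 = (cm K C (X 1) - cm K C (X 4)) * ((cm K C (X 1)) ^ 8 *
        ((cm K C (X 1)) ^ 7 + (cm K C (X 1)) ^ 6 * cm K C (X 4) + (cm K C (X 1)) ^ 5 * (cm K C (X 4)) ^ 2 +
        (cm K C (X 1)) ^ 4 * (cm K C (X 4)) ^ 3 + (cm K C (X 1)) ^ 3 * (cm K C (X 4)) ^ 4 +
        (cm K C (X 1)) ^ 2 * (cm K C (X 4)) ^ 5 + (cm K C (X 1)) * (cm K C (X 4)) ^ 6 +
        (cm K C (X 4)) ^ 7)) + (cm K C (X 1)) ^ 8 * (cm K C (X 4)) ^ 8 := by ring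
    rw [e, z2, add_zero]
    exact Ideal.mul_mem_right _ _ m3
  fin_cases i
  · exact (gen _ _ m1 z1).1
  · exact h1
  · exact (gen _ _ m2 z3).1
  · exact (gen _ _ m1 z1).2
  · have e : cm K C (X 4) = cm K C (X 1) - (cm K C (X 1) - cm K C (X 4)) := by ring
    show cm K C (X 4) ∈ I.radical
    rw [e]
    exact sub_mem h1 (Ideal.le_radical m3)
  · exact (gen _ _ m2 z3).2

lemma max_le_rad : maximalIdeal C ≤ (Ideal.ofList (ys K C)).radical := by
  rw [max_C K C, Ideal.span_le]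
  rintro _ ⟨i, rfl⟩
  exact X_rad K C i

lemma ys_mem : ∀ y ∈ ys K C, y ∈ maximalIdeal C := by
  have h : ∀ i, cm K C (X i) ∈ maximalIdeal C := fun i => by
    rw [max_C K C]; exact Ideal.subset_span ⟨i, rfl⟩
  intro y hy
  simp only [ys, List.mem_cons, List.not_mem_nil, or_false] at hy
  rcases hy with rfl | rfl | rfl
  · rw [map_sub, map_pow, map_pow]
    exact sub_mem (Ideal.pow_mem_of_mem _ (h 0) 3 (by norm_num)) (Ideal.pow_mem_of_mem _ (h 3) 2 (by norm_num))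
  · rw [map_sub, map_pow, map_pow]
    exact sub_mem (Ideal.pow_mem_of_mem _ (h 2) 3 (by norm_num)) (Ideal.pow_mem_of_mem _ (h 5) 2 (by norm_num))
  · rw [map_sub]; exact sub_mem (h 1) (h 4)

include K in
omit [IsLocalRing C] in
lemma noethC : IsNoetherianRing C := IsLocalization.isNoetherianRing (P0 K).primeCompl C inferInstance

include K in
lemma dimC : ringKrullDim C = 3 := by
  classical
  have hN : IsNoetherianRing C := noethC K C
  rw [IsLocalization.AtPrime.ringKrullDim_eq_height (P0 K) C]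
  have hle : (P0 K).height ≤ 3 := by
    have h1 := IsLocalization.AtPrime.ringKrullDim_eq_height (P0 K) C
    rw [← maximalIdeal_height_eq_ringKrullDim] at h1
    have h2 : (maximalIdeal C).height = (P0 K).height := by exact_mod_cast h1
    rw [← h2]
    have h3 : maximalIdeal C ∈ (Ideal.span (((ys K C).toFinset : Finset C) : Set C)).minimalPrimes := by
      refine ⟨⟨inferInstance, ?_⟩, ?_⟩
      · rw [Ideal.span_le]
        intro y hy
        exact ys_mem K C y (by simpa using hy)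
      · rintro Q ⟨hQ, hQs⟩ -
        refine (max_le_rad K C).trans ?_
        rw [hQ.radical_le_iff]
        refine le_trans ?_ hQs
        rw [Ideal.ofList]
        apply Ideal.span_mono
        intro y hy
        simpa using hy
    refine (Ideal.height_le_card_of_mem_minimalPrimes_span_finset h3).trans ?_
    have : (ys K C).toFinset.card ≤ 3 := List.toFinset_card_le _
    exact_mod_cast this
  have h : (P0 K).height = 3 := le_antisymm hle (three_le K)
  rw [h]; rfl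

omit [IsLocalRing C] in
lemma w_not_mem : cm K C (mon K ⟨5, 3, 2, 0, 0, 0⟩) ∉ Ideal.span {cm K C (X 0 ^ 3 - X 3 ^ 2)} := by
  intro h
  have e1 : Ideal.span {cm K C (X 0 ^ 3 - X 3 ^ 2)} =
      (Ideal.span {Ideal.Quotient.mk (mi K g4) (X 0 ^ 3 - X 3 ^ 2)}).map (algebraMap (AA K) C) := by
    rw [Ideal.map_span, Set.image_singleton]; rfl
  rw [e1] at h
  obtain ⟨m, hm, h2⟩ := (IsLocalization.algebraMap_mem_map_algebraMap_iff (P0 K).primeCompl C _ _).1 h
  obtain ⟨s, rfl⟩ := Ideal.Quotient.mk_surjective m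
  obtain ⟨r, hr⟩ := Ideal.mem_span_singleton'.1 h2
  obtain ⟨r, rfl⟩ := Ideal.Quotient.mk_surjective r
  rw [← map_mul, ← map_mul, eq_comm, Ideal.Quotient.eq] at hr
  have e2 : (X 0 ^ 3 - X 3 ^ 2 : MvPolynomial (Fin 6) K) =
      mon K ⟨3, 0, 0, 0, 0, 0⟩ - mon K ⟨0, 0, 0, 2, 0, 0⟩ := by
    rw [mon_eq, mon_eq]; ring
  rw [e2] at hr
  refine key_not_mem K (cc_of_not_mem K fun hs => hm ?_) hr
  exact Ideal.mem_map_of_mem _ hs

omit [IsLocalRing C] [IsLocalization.AtPrime C (P0 K)] in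
lemma rel_C : cm K C (X 2 ^ 3 - X 5 ^ 2) * cm K C (mon K ⟨5, 3, 2, 0, 0, 0⟩) =
    cm K C (X 0 ^ 3 - X 3 ^ 2) * cm K C (mon K ⟨2, 3, 5, 0, 0, 0⟩) := by
  rw [← map_mul, ← map_mul, ← sub_eq_zero, ← map_sub]
  apply cm_zero
  have e : ((X 2 ^ 3 - X 5 ^ 2) * mon K ⟨5, 3, 2, 0, 0, 0⟩ -
      (X 0 ^ 3 - X 3 ^ 2) * mon K ⟨2, 3, 5, 0, 0, 0⟩ : MvPolynomial (Fin 6) K) =
      mon K ⟨2, 3, 5, 2, 0, 0⟩ - mon K ⟨5, 3, 2, 0, 0, 2⟩ := by
    simp only [mon_eq]; ring
  rw [e]
  have h1 : mi K [⟨2, 3, 5, 2, 0, 0⟩, ⟨5, 3, 2, 0, 0, 2⟩] ≤ mi K g4 := mi_le K (by decide +kernel)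
  exact sub_mem (h1 (mon_mem K (by simp))) (h1 (mon_mem K (by simp)))

omit [IsLocalRing C] in
lemma not_regular : ¬ RingTheory.Sequence.IsRegular C (ys K C) := by
  intro hy
  unfold ys at hy
  rw [isRegular_cons_iff, isRegular_cons_iff] at hy
  obtain ⟨-, hg, -⟩ := hy
  have hmem : ∀ z : C, (Submodule.Quotient.mk z : QuotSMulTop (cm K C (X 0 ^ 3 - X 3 ^ 2)) C) = 0 ↔
      z ∈ Ideal.span {cm K C (X 0 ^ 3 - X 3 ^ 2)} := by
    intro z
    rw [Submodule.Quotient.mk_eq_zero, Submodule.mem_smul_pointwise_iff_exists,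
      Ideal.mem_span_singleton']
    constructor
    · rintro ⟨b, -, rfl⟩
      exact ⟨b, by rw [smul_eq_mul, mul_comm]⟩
    · rintro ⟨b, rfl⟩
      exact ⟨b, trivial, by rw [smul_eq_mul, mul_comm]⟩
  have h0 : cm K C (X 2 ^ 3 - X 5 ^ 2) •
      (Submodule.Quotient.mk (cm K C (mon K ⟨5, 3, 2, 0, 0, 0⟩)) :
        QuotSMulTop (cm K C (X 0 ^ 3 - X 3 ^ 2)) C) =
      cm K C (X 2 ^ 3 - X 5 ^ 2) • (0 : QuotSMulTop (cm K C (X 0 ^ 3 - X 3 ^ 2)) C) := by
    rw [smul_zero, ← Submodule.Quotient.mk_smul, smul_eq_mul, rel_C, hmem]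
    exact Ideal.mul_mem_right _ _ (Ideal.mem_span_singleton_self _)
  exact w_not_mem K C ((hmem _).1 (hg h0))

include K in
lemma no_cm (rs : List C) (hmem : ∀ r ∈ rs, r ∈ maximalIdeal C)
    (hreg : RingTheory.Sequence.IsRegular C rs) (hlen : (rs.length : WithBot ℕ∞) = ringKrullDim C) :
    False := by
  have hN : IsNoetherianRing C := noethC K C
  rw [dimC K C] at hlen
  have hlen' : rs.length = 3 := by exact_mod_cast hlen
  exact not_regular K C
    (Pool.Agent.Q171.KT.cm_regular 3 C rs hlen' hmem hreg (ys K C) rfl (ys_mem K C)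
      ((max_le_rad K C).trans (Ideal.radical_mono le_sup_left)))

end loc

theorem not_cm4 (K : Type) [Field K] : ¬ Q37.TW.IsCohenMacaulayRing (AA K) := by
  intro h
  obtain ⟨-, rs, hmem, hreg, hlen⟩ := h.2 (P0 K)
  exact no_cm K (Localization.AtPrime (P0 K)) rs hmem hreg hlen

end Q37.WP
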