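import Pool.Agent.Q37.WP.Flat

/-! # Extensions of free quotients -/

set_option autoImplicit false

namespace Q37.WP

universe u

theorem step {S R : Type u} [CommRing S] [CommRing R] [Algebra S R] (π : R →+* S)
    (hπ : ∀ s, π (algebraMap S R s) = s) (J : Ideal R) (v : R) (hc : ∀ f, f * v ∈ J ↔ π f = 0)
    (h : Module.Free S (R ⧸ (J ⊔ Ideal.span {v})) ∧ Module.Finite S (R ⧸ (J ⊔ Ideal.span {v}))) :
    Module.Free S (R ⧸ J) ∧ Module.Finite S (R ⧸ J) := by
  obtain ⟨h1, h2⟩ := h
  let f : S →ₗ[S] R ⧸ J := LinearMap.toSpanSingleton S (R ⧸ J) (Ideal.Quotient.mk J v)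
  have hf : ∀ s, f s = Ideal.Quotient.mk J (algebraMap S R s * v) := by
    intro s
    show s • Ideal.Quotient.mk J v = _
    rw [map_mul, Algebra.smul_def]; rfl
  let g : R ⧸ J →ₗ[S] R ⧸ (J ⊔ Ideal.span {v}) := (Ideal.Quotient.factorₐ S le_sup_left).toLinearMap
  have hg : ∀ r, g (Ideal.Quotient.mk J r) = Ideal.Quotient.mk (J ⊔ Ideal.span {v}) r := fun r => rfl
  have fi : Function.Injective f := by
    rw [injective_iff_map_eq_zero]
    intro s hs
    rw [hf, Ideal.Quotient.eq_zero_iff_mem, hc, hπ] at hs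
    exact hs
  have gs : Function.Surjective g := by
    intro y
    obtain ⟨r, rfl⟩ := Ideal.Quotient.mk_surjective y
    exact ⟨Ideal.Quotient.mk J r, rfl⟩
  have ex : Function.Exact f g := by
    intro y
    obtain ⟨r, rfl⟩ := Ideal.Quotient.mk_surjective y
    rw [hg, Ideal.Quotient.eq_zero_iff_mem]
    constructor
    · intro hr
      obtain ⟨a, ha, b, hb, rfl⟩ := Submodule.mem_sup.1 hr
      obtain ⟨c, rfl⟩ := Ideal.mem_span_singleton'.1 hb
      refine ⟨π c, ?_⟩
      rw [hf, Ideal.Quotient.eq]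
      have h3 : (algebraMap S R (π c) - c) * v ∈ J := by
        rw [hc, map_sub, hπ, sub_self]
      have h4 : algebraMap S R (π c) * v - (a + c * v) = (algebraMap S R (π c) - c) * v - a := by ring
      rw [h4]
      exact sub_mem h3 ha
    · rintro ⟨s, hs⟩
      rw [hf, Ideal.Quotient.eq] at hs
      have h3 : r = algebraMap S R s * v - (algebraMap S R s * v - r) := by ring
      rw [h3]
      exact sub_mem (Ideal.mul_mem_left _ _ (Submodule.mem_sup_right (Ideal.mem_span_singleton_self v)))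
        (Submodule.mem_sup_left hs)
  obtain ⟨l, hl⟩ := Module.projective_lifting_property g LinearMap.id gs
  let e := (ex.splitSurjectiveEquiv fi ⟨l, hl⟩).1
  exact ⟨Module.Free.of_equiv e.symm, Module.Finite.equiv e.symm⟩

theorem step_nzd {S R : Type u} [CommRing S] [IsDomain S] [CommRing R] (π : R →+* S)
    (J : Ideal R) (v : R) (hc : ∀ f, f * v ∈ J ↔ π f = 0)
    (h : ∀ a z, π a ≠ 0 → a * z ∈ J ⊔ Ideal.span {v} → z ∈ J ⊔ Ideal.span {v}) :
    ∀ a z, π a ≠ 0 → a * z ∈ J → z ∈ J := by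
  intro a z ha hz
  obtain ⟨b, hb, c, hc', rfl⟩ := Submodule.mem_sup.1 (h a z ha (Submodule.mem_sup_left hz))
  obtain ⟨c, rfl⟩ := Ideal.mem_span_singleton'.1 hc'
  have h1 : (a * c) * v ∈ J := by
    have : (a * c) * v = a * (b + c * v) - a * b := by ring
    rw [this]
    exact sub_mem hz (Ideal.mul_mem_left _ _ hb)
  rw [hc, map_mul] at h1
  have h2 := (mul_eq_zero.1 h1).resolve_left ha
  exact add_mem hb ((hc c).2 h2)

end Q37.WP
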