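import Pool.Agent.Q37.WP.Dat
import Pool.Agent.Q37.WP.Defs

/-! # Heights of monomial primes, and the fourth power is unmixed -/

set_option autoImplicit false

namespace Q37.WP

open MvPolynomial

variable (K : Type) [Field K]

/-- the prime generated by the variables in `S` -/
noncomputable def pv (S : Finset (Fin 6)) : Ideal (MvPolynomial (Fin 6) K) :=
  Ideal.span (X '' (S : Set (Fin 6)))

instance pv_prime (S : Finset (Fin 6)) : (pv K S).IsPrime := by
  classical
  let φ : MvPolynomial (Fin 6) K →ₐ[K] MvPolynomial (Fin 6) K :=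
    aeval fun i => if i ∈ S then 0 else X i
  have h1 : ∀ f, f - φ f ∈ pv K S := by
    intro f
    induction f using MvPolynomial.induction_on with
    | C a => simp [φ]
    | add p q hp hq =>
      have : p + q - φ (p + q) = (p - φ p) + (q - φ q) := by rw [map_add]; ring
      rw [this]; exact add_mem hp hq
    | mul_X p i hp =>
      have hX : (X i : MvPolynomial (Fin 6) K) - φ (X i) ∈ pv K S := by
        simp only [φ, aeval_X]
        split_ifs with hi
        · rw [sub_zero]; exact Ideal.subset_span ⟨i, hi, rfl⟩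
        · rw [sub_self]; exact zero_mem _
      have : p * X i - φ (p * X i) = (p - φ p) * X i + φ p * (X i - φ (X i)) := by
        rw [map_mul]; ring
      rw [this]
      exact add_mem (Ideal.mul_mem_right _ _ hp) (Ideal.mul_mem_left _ _ hX)
  have h2 : pv K S = RingHom.ker φ := by
    apply le_antisymm
    · unfold pv
      rw [Ideal.span_le]
      rintro _ ⟨i, hi, rfl⟩
      show φ (X i) = 0
      simp only [φ, aeval_X]
      rw [if_pos]
      exact hi
    · intro f hf
      have h3 : φ f = 0 := hf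
      have h4 := h1 f
      rwa [h3, sub_zero] at h4
  rw [h2]
  exact RingHom.ker_isPrime _

lemma X_mem_pv {S : Finset (Fin 6)} {i : Fin 6} : (X i : MvPolynomial (Fin 6) K) ∈ pv K S ↔ i ∈ S := by
  constructor
  · intro h
    unfold pv at h
    rw [mem_ideal_span_X_image] at h
    obtain ⟨j, hj, h2⟩ := h (Finsupp.single i 1) (by rw [support_X]; simp)
    rw [Finsupp.single_apply] at h2
    split_ifs at h2 with h3
    · subst h3; exact hj
    · exact absurd rfl h2
  · intro h
    exact Ideal.subset_span ⟨i, h, rfl⟩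

lemma pv_mono {S T : Finset (Fin 6)} (h : S ⊆ T) : pv K S ≤ pv K T :=
  Ideal.span_mono (Set.image_mono (by exact_mod_cast h))

lemma pv_lt {S T : Finset (Fin 6)} (h : S ⊆ T) {i : Fin 6} (hT : i ∈ T) (hS : i ∉ S) :
    pv K S < pv K T :=
  lt_of_le_not_ge (pv_mono K h) fun hle => hS ((X_mem_pv K).1 (hle ((X_mem_pv K).2 hT)))

lemma card_le_height (S : Finset (Fin 6)) : (S.card : ℕ∞) ≤ (pv K S).height := by
  classical
  induction S using Finset.induction_on with
  | empty => simp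
  | insert i S hi ih =>
    rw [Finset.card_insert_of_notMem hi]
    have h := Ideal.height_add_one_le_of_lt_of_isPrime
      (pv_lt K (Finset.subset_insert i S) (Finset.mem_insert_self i S) hi)
    refine le_trans ?_ h
    push_cast
    gcongr

lemma height_pv (S : Finset (Fin 6)) : (pv K S).height = S.card := by
  classical
  apply le_antisymm _ (card_le_height K S)
  have h1 : pv K S = Ideal.span ((S.image (X : Fin 6 → MvPolynomial (Fin 6) K) :
      Finset (MvPolynomial (Fin 6) K)) : Set (MvPolynomial (Fin 6) K)) := by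
    rw [Finset.coe_image]; rfl
  have h2 : pv K S ∈ (Ideal.span ((S.image (X : Fin 6 → MvPolynomial (Fin 6) K) :
      Finset (MvPolynomial (Fin 6) K)) : Set (MvPolynomial (Fin 6) K))).minimalPrimes := by
    rw [← h1]
    rw [Ideal.minimalPrimes_eq_subsingleton_self]
    rfl
  refine (Ideal.height_le_card_of_mem_minimalPrimes_span_finset h2).trans ?_
  exact_mod_cast Finset.card_image_le

/-- the index set of the killed variables -/
def kv (t : Bool × Bool × Bool) : Finset (Fin 6) :=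
  {bif t.1 then 3 else 0, bif t.2.1 then 4 else 1, bif t.2.2 then 5 else 2}

lemma kv_card : ∀ t, (kv t).card = 3 := by decide

lemma mi_W (t : Bool × Bool × Bool) : mi K (W t) = pv K (kv t) := by
  apply le_antisymm
  · apply mi_le_of
    intro v hv
    obtain ⟨t1, t2, t3⟩ := t
    simp only [W, List.mem_cons, List.not_mem_nil, or_false] at hv
    rcases hv with rfl | rfl | rfl
    · cases t1 <;> simp [mon_X0, mon_X3, X_mem_pv, kv]
    · cases t2 <;> simp [mon_X1, mon_X4, X_mem_pv, kv]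
    · cases t3 <;> simp [mon_X2, mon_X5, X_mem_pv, kv]
  · unfold pv
    rw [Ideal.span_le]
    rintro _ ⟨i, hi, rfl⟩
    obtain ⟨t1, t2, t3⟩ := t
    simp only [kv, Finset.coe_insert, Finset.coe_singleton, Set.mem_insert_iff,
      Set.mem_singleton_iff] at hi
    rcases hi with rfl | rfl | rfl
    · cases t1
      · exact mon_X0 K ▸ mon_mem K (by simp [W])
      · exact mon_X3 K ▸ mon_mem K (by simp [W])
    · cases t2
      · exact mon_X1 K ▸ mon_mem K (by simp [W])
      · exact mon_X4 K ▸ mon_mem K (by simp [W])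
    · cases t3
      · exact mon_X2 K ▸ mon_mem K (by simp [W])
      · exact mon_X5 K ▸ mon_mem K (by simp [W])

/-- an associated prime of `mi g4` is contained in one of the `pv (kv t)` -/
lemma ass_le {P : Ideal (MvPolynomial (Fin 6) K)}
    (hP : P ∈ associatedPrimes (MvPolynomial (Fin 6) K) (MvPolynomial (Fin 6) K ⧸ mi K g4)) :
    P.IsPrime ∧ mi K g4 ≤ P ∧ ∃ t, P ≤ pv K (kv t) := by
  obtain ⟨hp, x, hx⟩ := isAssociatedPrime_iff.1 hP
  obtain ⟨z, rfl⟩ := Ideal.Quotient.mk_surjective x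
  have hmem : ∀ a, a ∈ P ↔ a * z ∈ mi K g4 := by
    intro a
    have e : a • Ideal.Quotient.mk (mi K g4) z = Ideal.Quotient.mk (mi K g4) (a * z) := rfl
    rw [hx, Submodule.mem_colon_singleton, Submodule.mem_bot, e, Ideal.Quotient.eq_zero_iff_mem]
  have hz : z ∉ mi K g4 := by
    intro hz
    apply hp.ne_top
    rw [Ideal.eq_top_iff_one, hmem, one_mul]
    exact hz
  refine ⟨hp, fun a ha => (hmem a).2 (Ideal.mul_mem_right _ _ ha), ?_⟩
  have key : ∀ (t : Bool × Bool × Bool) (q c : List M6), chkN t q c = true →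
      covers q g4 = true → z ∉ mi K q → ∃ t, P ≤ pv K (kv t) := by
    intro t q c h1 h2 h3
    refine ⟨t, fun a ha => ?_⟩
    rw [← mi_W, rt_zero_iff]
    by_contra hne
    exact h3 (chkN_nzd K t c q h1 a z hne (mi_le K h2 ((hmem a).1 ha)))
  by_contra hcon
  have k0 : z ∈ mi K q0 := by
    by_contra h; exact hcon (key _ _ _ hc0 hq0 h)
  have k1 : z ∈ mi K q1 := by
    by_contra h; exact hcon (key _ _ _ hc1 hq1 h)
  have k2 : z ∈ mi K q2 := by
    by_contra h; exact hcon (key _ _ _ hc2 hq2 h)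
  have k3 : z ∈ mi K q3 := by
    by_contra h; exact hcon (key _ _ _ hc3 hq3 h)
  have k4 : z ∈ mi K q4 := by
    by_contra h; exact hcon (key _ _ _ hc4 hq4 h)
  exact hz (mi_inf K hi4 (mi_inf K hi3 (mi_inf K hi2 (mi_inf K hi1 k0 k1) k2) k3) k4)

lemma mon_eq (a b c d e f : ℕ) : mon K ⟨a, b, c, d, e, f⟩ =
    X 0 ^ a * X 1 ^ b * X 2 ^ c * X 3 ^ d * X 4 ^ e * X 5 ^ f := by
  unfold mon
  rw [monomial_eq, Finsupp.prod_fintype _ _ (fun i => pow_zero _)]
  simp only [Fin.prod_univ_six, C_1, one_mul]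
  rfl

lemma ass_eq {P : Ideal (MvPolynomial (Fin 6) K)}
    (hP : P ∈ associatedPrimes (MvPolynomial (Fin 6) K) (MvPolynomial (Fin 6) K ⧸ mi K g4)) :
    ∃ t, P = pv K (kv t) := by
  obtain ⟨hp, hle, t, ht⟩ := ass_le K hP
  refine ⟨t, le_antisymm ht ?_⟩
  have e0 : X 0 ∈ P ∨ X 3 ∈ P := by
    have h1 : mon K ⟨8, 0, 0, 8, 0, 0⟩ ∈ mi K g4 := mon_mem K (by simp [g4])
    have h2 : mon K ⟨8, 0, 0, 8, 0, 0⟩ = (X 0 * X 3) ^ 8 := by rw [mon_eq]; ring
    exact hp.mem_or_mem (hp.mem_of_pow_mem 8 (h2 ▸ hle h1))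
  have e1 : X 1 ∈ P ∨ X 4 ∈ P := by
    have h1 : mon K ⟨0, 8, 0, 0, 8, 0⟩ ∈ mi K g4 := mon_mem K (by simp [g4])
    have h2 : mon K ⟨0, 8, 0, 0, 8, 0⟩ = (X 1 * X 4) ^ 8 := by rw [mon_eq]; ring
    exact hp.mem_or_mem (hp.mem_of_pow_mem 8 (h2 ▸ hle h1))
  have e2 : X 2 ∈ P ∨ X 5 ∈ P := by
    have h1 : mon K ⟨0, 0, 8, 0, 0, 8⟩ ∈ mi K g4 := mon_mem K (by simp [g4])
    have h2 : mon K ⟨0, 0, 8, 0, 0, 8⟩ = (X 2 * X 5) ^ 8 := by rw [mon_eq]; ring
    exact hp.mem_or_mem (hp.mem_of_pow_mem 8 (h2 ▸ hle h1))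
  have hn : ∀ i, (X i : MvPolynomial (Fin 6) K) ∈ P → i ∈ kv t := fun i hi => (X_mem_pv K).1 (ht hi)
  unfold pv
  rw [Ideal.span_le]
  rintro _ ⟨i, hi, rfl⟩
  have n0 := hn 0
  have n1 := hn 1
  have n2 := hn 2
  have n3 := hn 3
  have n4 := hn 4
  have n5 := hn 5
  obtain ⟨t1, t2, t3⟩ := t
  simp only [kv, Finset.coe_insert, Finset.coe_singleton, Set.mem_insert_iff,
    Set.mem_singleton_iff] at hi
  rcases hi with rfl | rfl | rfl
  · cases t1
    · exact e0.resolve_right fun h => (show ∀ t2 t3, (3 : Fin 6) ∉ kv (false, t2, t3) by decide) t2 t3 (n3 h)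
    · exact e0.resolve_left fun h => (show ∀ t2 t3, (0 : Fin 6) ∉ kv (true, t2, t3) by decide) t2 t3 (n0 h)
  · cases t2
    · exact e1.resolve_right fun h => (show ∀ t1 t3, (4 : Fin 6) ∉ kv (t1, false, t3) by decide) t1 t3 (n4 h)
    · exact e1.resolve_left fun h => (show ∀ t1 t3, (1 : Fin 6) ∉ kv (t1, true, t3) by decide) t1 t3 (n1 h)
  · cases t3
    · exact e2.resolve_right fun h => (show ∀ t1 t2, (5 : Fin 6) ∉ kv (t1, t2, false) by decide) t1 t2 (n5 h)
    · exact e2.resolve_left fun h => (show ∀ t1 t2, (2 : Fin 6) ∉ kv (t1, t2, true) by decide) t1 t2 (n2 h)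

theorem unmixed4 : IsUnmixed (mi K g4) := by
  intro P hP Q hQ
  obtain ⟨t, rfl⟩ := ass_eq K hP
  obtain ⟨t', rfl⟩ := ass_eq K hQ
  rw [height_pv, height_pv, kv_card, kv_card]

end Q37.WP
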